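import Mathlib

set_option autoImplicit false

namespace Pool.Agent.R867.Cub

open Polynomial

section Basic

variable {K : Type*} [Field K] (c : Fin 4 → Fin 4 → Fin 4 → K)
variable {R : Type*} [CommRing R] [Algebra K R]

/-- the trilinear form with the coefficients `c` -/
def B (u v w : Fin 4 → R) : R :=
  ∑ i, ∑ j, ∑ k, algebraMap K R (c i j k) * (u i * v j * w k)

/-- the cubic form -/
def F (v : Fin 4 → R) : R := B c v v v

/-- its derivative at `v` in the direction `w` -/
def D (v w : Fin 4 → R) : R := B c w v v + B c v w v + B c v v w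

/-- the symmetrised trilinear form -/
def T (u v w : Fin 4 → R) : R :=
  B c u v w + B c u w v + B c v u w + B c v w u + B c w u v + B c w v u

lemma B_add1 (u u' v w : Fin 4 → R) : B c (u + u') v w = B c u v w + B c u' v w := by
  simp only [B, Pi.add_apply, ← Finset.sum_add_distrib]
  refine Finset.sum_congr rfl fun i _ => Finset.sum_congr rfl fun j _ =>
    Finset.sum_congr rfl fun k _ => by ring

lemma B_add2 (u v v' w : Fin 4 → R) : B c u (v + v') w = B c u v w + B c u v' w := by
  simp only [B, Pi.add_apply, ← Finset.sum_add_distrib]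
  refine Finset.sum_congr rfl fun i _ => Finset.sum_congr rfl fun j _ =>
    Finset.sum_congr rfl fun k _ => by ring

lemma B_add3 (u v w w' : Fin 4 → R) : B c u v (w + w') = B c u v w + B c u v w' := by
  simp only [B, Pi.add_apply, ← Finset.sum_add_distrib]
  refine Finset.sum_congr rfl fun i _ => Finset.sum_congr rfl fun j _ =>
    Finset.sum_congr rfl fun k _ => by ring

lemma B_smul1 (a : R) (u v w : Fin 4 → R) : B c (a • u) v w = a * B c u v w := by
  simp only [B, Pi.smul_apply, smul_eq_mul, Finset.mul_sum]
  refine Finset.sum_congr rfl fun i _ => Finset.sum_congr rfl fun j _ =>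
    Finset.sum_congr rfl fun k _ => by ring

lemma B_smul2 (a : R) (u v w : Fin 4 → R) : B c u (a • v) w = a * B c u v w := by
  simp only [B, Pi.smul_apply, smul_eq_mul, Finset.mul_sum]
  refine Finset.sum_congr rfl fun i _ => Finset.sum_congr rfl fun j _ =>
    Finset.sum_congr rfl fun k _ => by ring

lemma B_smul3 (a : R) (u v w : Fin 4 → R) : B c u v (a • w) = a * B c u v w := by
  simp only [B, Pi.smul_apply, smul_eq_mul, Finset.mul_sum]
  refine Finset.sum_congr rfl fun i _ => Finset.sum_congr rfl fun j _ =>
    Finset.sum_congr rfl fun k _ => by ring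

lemma T_comm12 (u v w : Fin 4 → R) : T c u v w = T c v u w := by
  simp only [T]; ring

lemma T_comm23 (u v w : Fin 4 → R) : T c u v w = T c u w v := by
  simp only [T]; ring

lemma T_comm13 (u v w : Fin 4 → R) : T c u v w = T c w v u := by
  simp only [T]; ring

lemma T_self (u v : Fin 4 → R) : T c u u v = 2 * D c u v := by
  simp only [T, D]; ring

lemma T_aba (u v : Fin 4 → R) : T c u v u = 2 * D c u v := by
  simp only [T, D]; ring

lemma T_baa (u v : Fin 4 → R) : T c v u u = 2 * D c u v := by
  simp only [T, D]; ring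

lemma D_self (u : Fin 4 → R) : D c u u = 3 * F c u := by
  simp only [F, D]; ring

lemma F_comb (a b : R) (u v : Fin 4 → R) :
    F c (a • u + b • v) = a ^ 3 * F c u + a ^ 2 * b * D c u v + a * b ^ 2 * D c v u
      + b ^ 3 * F c v := by
  simp only [F, D, B_add1, B_add2, B_add3, B_smul1, B_smul2, B_smul3]; ring

lemma F_add (u v : Fin 4 → R) : F c (u + v) = F c u + D c u v + D c v u + F c v := by
  simp only [F, D, B_add1, B_add2, B_add3]; ring

lemma F_smul (a : R) (u : Fin 4 → R) : F c (a • u) = a ^ 3 * F c u := by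
  simp only [F, B_smul1, B_smul2, B_smul3]; ring

lemma D_add1 (u u' v : Fin 4 → R) : D c (u + u') v = D c u v + T c u u' v + D c u' v := by
  simp only [T, D, B_add1, B_add2, B_add3]; ring

lemma D_add2 (u v v' : Fin 4 → R) : D c u (v + v') = D c u v + D c u v' := by
  simp only [D, B_add1, B_add2, B_add3]; ring

lemma D_smul1 (a : R) (u v : Fin 4 → R) : D c (a • u) v = a ^ 2 * D c u v := by
  simp only [D, B_smul1, B_smul2, B_smul3]; ring

lemma D_smul2 (a : R) (u v : Fin 4 → R) : D c u (a • v) = a * D c u v := by
  simp only [D, B_smul1, B_smul2, B_smul3]; ring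

lemma T_add1 (u u' v w : Fin 4 → R) : T c (u + u') v w = T c u v w + T c u' v w := by
  simp only [T, B_add1, B_add2, B_add3]; ring

lemma T_add2 (u v v' w : Fin 4 → R) : T c u (v + v') w = T c u v w + T c u v' w := by
  simp only [T, B_add1, B_add2, B_add3]; ring

lemma T_add3 (u v w w' : Fin 4 → R) : T c u v (w + w') = T c u v w + T c u v w' := by
  simp only [T, B_add1, B_add2, B_add3]; ring

lemma T_smul1 (a : R) (u v w : Fin 4 → R) : T c (a • u) v w = a * T c u v w := by
  simp only [T, B_smul1, B_smul2, B_smul3]; ring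

lemma T_smul2 (a : R) (u v w : Fin 4 → R) : T c u (a • v) w = a * T c u v w := by
  simp only [T, B_smul1, B_smul2, B_smul3]; ring

lemma T_smul3 (a : R) (u v w : Fin 4 → R) : T c u v (a • w) = a * T c u v w := by
  simp only [T, B_smul1, B_smul2, B_smul3]; ring

lemma D_zero2 (u : Fin 4 → R) : D c u 0 = 0 := by
  have := D_smul2 c (0 : R) u 0
  simpa using this

lemma F_zero : F c (0 : Fin 4 → R) = 0 := by
  have := F_smul c (0 : R) 0
  simpa using this

/-- the fundamental curve: the residual intersection of the line through `e` and `z` -/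
lemma F_third (e z : Fin 4 → R) (he : F c e = 0) (hz : D c e z = 0) :
    F c (F c z • e + (-(D c z e)) • z) = 0 := by
  rw [F_comb, he, hz]; ring

/-- the third point of a secant -/
lemma F_secant (e z : Fin 4 → R) (he : F c e = 0) (hz : F c z = 0) :
    F c (D c z e • e + (-(D c e z)) • z) = 0 := by
  rw [F_comb, he, hz]; ring

end Basic

section Maps

variable {K : Type*} [Field K] (c : Fin 4 → Fin 4 → Fin 4 → K)
variable {R : Type*} [CommRing R] [Algebra K R] {S : Type*} [CommRing S] [Algebra K S]
variable (φ : R →ₐ[K] S)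

/-- the image of a vector -/
def mp (v : Fin 4 → R) : Fin 4 → S := fun i => φ (v i)

@[simp] lemma mp_apply (v : Fin 4 → R) (i : Fin 4) : mp φ v i = φ (v i) := rfl

lemma mp_add (u v : Fin 4 → R) : mp φ (u + v) = mp φ u + mp φ v := by
  funext i; simp

lemma mp_smul (a : R) (v : Fin 4 → R) : mp φ (a • v) = φ a • mp φ v := by
  funext i; simp

lemma mp_B (u v w : Fin 4 → R) : B c (mp φ u) (mp φ v) (mp φ w) = φ (B c u v w) := by
  simp [B]

lemma mp_F (v : Fin 4 → R) : F c (mp φ v) = φ (F c v) := by
  simp only [F, mp_B]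

lemma mp_D (v w : Fin 4 → R) : D c (mp φ v) (mp φ w) = φ (D c v w) := by
  simp only [D, mp_B, map_add]

lemma mp_T (u v w : Fin 4 → R) : T c (mp φ u) (mp φ v) (mp φ w) = φ (T c u v w) := by
  simp only [T, mp_B, map_add]

/-- the image of a vector over `K` -/
def up (R : Type*) [CommRing R] [Algebra K R] (v : Fin 4 → K) : Fin 4 → R :=
  fun i => algebraMap K R (v i)

@[simp] lemma up_apply (v : Fin 4 → K) (i : Fin 4) : up R v i = algebraMap K R (v i) := rfl

lemma up_add (u v : Fin 4 → K) : up R (u + v) = up R u + up R v := by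
  funext i; simp

lemma up_smul (a : K) (v : Fin 4 → K) : up R (a • v) = algebraMap K R a • up R v := by
  funext i; simp

lemma up_B (u v w : Fin 4 → K) : B c (up R u) (up R v) (up R w) = algebraMap K R (B c u v w) := by
  simp [B, up]

lemma up_F (v : Fin 4 → K) : F c (up R v) = algebraMap K R (F c v) := by
  simp only [F, up_B]

lemma up_D (v w : Fin 4 → K) : D c (up R v) (up R w) = algebraMap K R (D c v w) := by
  simp only [D, up_B, map_add]

lemma up_T (u v w : Fin 4 → K) : T c (up R u) (up R v) (up R w) =
    algebraMap K R (T c u v w) := by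
  simp only [T, up_B, map_add]

lemma mp_up (v : Fin 4 → K) : mp φ (up R v) = up S v := by
  funext i; simp

end Maps

end Pool.Agent.R867.Cub
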