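import Pool.Agent.R867.Cub.Fin

set_option autoImplicit false

namespace Pool.Agent.R867.Cub

open Polynomial

section CaseC

variable {K : Type*} [Field K] {c : Fin 4 → Fin 4 → Fin 4 → K}

/-- constants -/
noncomputable def cst : Om K →ₐ[K] (Om K)[X] := IsScalarTower.toAlgHom K (Om K) (Om K)[X]

lemma cst_apply (y : Om K) : cst y = C y := rfl

/-- evaluation -/
noncomputable def ev (b : Om K) : (Om K)[X] →ₐ[K] Om K := (aeval b).restrictScalars K

lemma ev_apply (b : Om K) (P : (Om K)[X]) : ev b P = P.eval b := by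
  simp [ev, Polynomial.coe_aeval_eq_eval]

lemma ev_cst (b y : Om K) : ev b (cst y) = y := by
  rw [ev_apply, cst_apply, eval_C]

lemma ev_X (b : Om K) : ev b (X : (Om K)[X]) = b := by
  rw [ev_apply, eval_X]

lemma mp_ev_cst (b : Om K) (z : Fin 4 → Om K) : mp (ev b) (mp cst z) = z := by
  funext i; simp [ev_cst]

/-- Frobenius -/
noncomputable def fr (K : Type*) [Field K] [Fintype K] : Om K →ₐ[K] Om K :=
  FiniteField.frobeniusAlgHom K (Om K)

/-- Frobenius on the coefficients -/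
noncomputable def frX (K : Type*) [Field K] [Fintype K] : (Om K)[X] →ₐ[K] (Om K)[X] :=
  Polynomial.mapAlgHom (fr K)

lemma frX_cst [Fintype K] (y : Om K) : frX K (cst y) = cst (fr K y) := by
  simp [frX, cst_apply]

lemma frX_X [Fintype K] : frX K (X : (Om K)[X]) = X := by
  simp [frX]

lemma mp_frX_cst [Fintype K] (z : Fin 4 → Om K) : mp (frX K) (mp cst z) = mp cst (mp (fr K) z) := by
  funext i; simp [frX_cst]

lemma good_of_descent [Fintype K] {x : Fin 4 → K} (f : Fin 4 → (Om K)[X]) (hF : F c f = 0)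
    (hfr : mp (frX K) f = f) (h1 : ∃ a κ : Om K, κ ≠ 0 ∧ mp (ev a) f = κ • up (Om K) x)
    (h2 : ∃ b : Om K, ∀ κ : Om K, mp (ev b) f ≠ κ • up (Om K) x) : Good c x := by
  have h3 : ∀ i, ∃ P : K[X], P.map (algebraMap K (Om K)) = f i := by
    intro i
    apply descent
    have := congrFun hfr i
    exact this
  choose f0 hf0 using h3
  have h4 : mp (Polynomial.mapAlgHom (Algebra.ofId K (Om K))) f0 = f := by
    funext i
    exact hf0 i
  have h5 : ∀ b : Om K, mp (aeval b) f0 = mp (ev b) f := by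
    intro b
    funext i
    rw [mp_apply, mp_apply, ev_apply, ← hf0 i, eval_map_algebraMap]
  refine ⟨f0, ?_, ?_, ?_⟩
  · have h6 := mp_F c (Polynomial.mapAlgHom (Algebra.ofId K (Om K))) f0
    rw [h4, hF] at h6
    have h7 : Function.Injective (Polynomial.mapAlgHom (Algebra.ofId K (Om K))) :=
      Polynomial.map_injective _ (algebraMap K (Om K)).injective
    apply h7
    rw [← h6, map_zero]
  · obtain ⟨a, κ, h6, h7⟩ := h1
    exact ⟨a, κ, h6, by rw [h5]; exact h7⟩
  · obtain ⟨b, h6⟩ := h2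
    exact ⟨b, fun κ => by rw [h5]; exact h6 κ⟩

/-- the point over `p` -/
noncomputable def sv (x p : Fin 4 → K) (l : Om K) : Fin 4 → Om K := l • up (Om K) x + up (Om K) p

/-- the coefficient for which `mv • x + v` is tangent at `sv` -/
noncomputable def mv (c : Fin 4 → Fin 4 → Fin 4 → K) (x p v : Fin 4 → K) (l : Om K) : Om K :=
  -(D c (sv x p l) (up (Om K) v)) / D c (sv x p l) (up (Om K) x)

noncomputable def wv (c : Fin 4 → Fin 4 → Fin 4 → K) (x p v : Fin 4 → K) (l : Om K) :
    Fin 4 → Om K := mv c x p v l • up (Om K) x + up (Om K) v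

noncomputable def Wv (c : Fin 4 → Fin 4 → Fin 4 → K) (x p v1 v2 : Fin 4 → K) (l : Om K) :
    Fin 4 → (Om K)[X] := mp cst (wv c x p v1 l) + (X : (Om K)[X]) • mp cst (wv c x p v2 l)

/-- the tangent plane section at `sv` -/
noncomputable def fv (c : Fin 4 → Fin 4 → Fin 4 → K) (x p v1 v2 : Fin 4 → K) (l : Om K) :
    Fin 4 → (Om K)[X] :=
  F c (Wv c x p v1 v2 l) • mp cst (sv x p l) +
    (-(D c (Wv c x p v1 v2 l) (mp cst (sv x p l)))) • Wv c x p v1 v2 l

lemma fr_sv [Fintype K] (x p : Fin 4 → K) (l : Om K) :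
    mp (fr K) (sv x p l) = sv x p (fr K l) := by
  unfold sv
  rw [mp_add, mp_smul, mp_up, mp_up]

lemma fr_mv [Fintype K] (x p v : Fin 4 → K) (l : Om K) :
    fr K (mv c x p v l) = mv c x p v (fr K l) := by
  unfold mv
  rw [map_div₀, map_neg, ← mp_D, ← mp_D, fr_sv, mp_up, mp_up]

lemma fr_wv [Fintype K] (x p v : Fin 4 → K) (l : Om K) :
    mp (fr K) (wv c x p v l) = wv c x p v (fr K l) := by
  unfold wv
  rw [mp_add, mp_smul, mp_up, mp_up, fr_mv]

lemma fr_Wv [Fintype K] (x p v1 v2 : Fin 4 → K) (l : Om K) :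
    mp (frX K) (Wv c x p v1 v2 l) = Wv c x p v1 v2 (fr K l) := by
  unfold Wv
  rw [mp_add, mp_smul, mp_frX_cst, mp_frX_cst, frX_X, fr_wv, fr_wv]

lemma fr_fv [Fintype K] (x p v1 v2 : Fin 4 → K) (l : Om K) :
    mp (frX K) (fv c x p v1 v2 l) = fv c x p v1 v2 (fr K l) := by
  unfold fv
  rw [mp_add, mp_smul, mp_smul, map_neg, ← mp_F, ← mp_D, fr_Wv, mp_frX_cst, fr_sv]

lemma ev_Wv (x p v1 v2 : Fin 4 → K) (l b : Om K) :
    mp (ev b) (Wv c x p v1 v2 l) = wv c x p v1 l + b • wv c x p v2 l := by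
  unfold Wv
  rw [mp_add, mp_smul, mp_ev_cst, mp_ev_cst, ev_X]

lemma ev_fv (x p v1 v2 : Fin 4 → K) (l b : Om K) :
    mp (ev b) (fv c x p v1 v2 l) =
      F c (wv c x p v1 l + b • wv c x p v2 l) • sv x p l +
      (-(D c (wv c x p v1 l + b • wv c x p v2 l) (sv x p l))) •
        (wv c x p v1 l + b • wv c x p v2 l) := by
  unfold fv
  rw [mp_add, mp_smul, mp_smul, map_neg, ← mp_F, ← mp_D, ev_Wv, mp_ev_cst]

/-- the situation of the last case -/
structure Cfg (c : Fin 4 → Fin 4 → Fin 4 → K) (x p v1 v2 : Fin 4 → K) : Prop where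
  bad : Bad c x
  hx : F c x = 0
  hp : D c x p ≠ 0
  h1 : D c x v1 = 0
  h2 : D c x v2 = 0
  li : LinearIndependent K ![x, v1, v2]
  dsc : Dsc c x p ≠ 0
  est : Est c x p v2 ≠ 0

variable {x p v1 v2 : Fin 4 → K}

/-- `l` is a root of `F (l x + p)` -/
def IsRt (c : Fin 4 → Fin 4 → Fin 4 → K) (x p : Fin 4 → K) (l : Om K) : Prop :=
  algebraMap K (Om K) (D c x p) * l ^ 2 + algebraMap K (Om K) (D c p x) * l +
    algebraMap K (Om K) (F c p) = 0

lemma F_sv (hx : F c x = 0) {l : Om K} (hl : IsRt c x p l) : F c (sv x p l) = 0 := by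
  unfold sv
  unfold IsRt at hl
  rw [F_add, F_smul, D_smul1, D_smul2, up_F, up_F, up_D, up_D, hx, map_zero]
  linear_combination hl

lemma D_svx (hx : F c x = 0) (l : Om K) :
    D c (sv x p l) (up (Om K) x) =
      2 * algebraMap K (Om K) (D c x p) * l + algebraMap K (Om K) (D c p x) := by
  unfold sv
  rw [D_add1, D_smul1, T_smul1, T_aba, D_self, up_F, up_D, up_D, hx, map_zero]
  ring

lemma D_svx_ne (h : Cfg c x p v1 v2) {l : Om K} (hl : IsRt c x p l) :
    D c (sv x p l) (up (Om K) x) ≠ 0 := by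
  intro h0
  apply h.dsc
  apply (algebraMap K (Om K)).injective
  rw [D_svx h.hx] at h0
  unfold IsRt at hl
  unfold Dsc
  rw [map_sub, map_mul, map_mul, map_pow, map_zero, map_ofNat]
  linear_combination (2 * algebraMap K (Om K) (D c x p) * l + algebraMap K (Om K) (D c p x)) * h0
    - 4 * algebraMap K (Om K) (D c x p) * hl

lemma D_sv_wv (h : Cfg c x p v1 v2) {l : Om K} (hl : IsRt c x p l) (v : Fin 4 → K) :
    D c (sv x p l) (wv c x p v l) = 0 := by
  have h0 := D_svx_ne h hl
  unfold wv mv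
  rw [D_add2, D_smul2]
  field_simp
  ring

/-- vectors of the tangent plane -/
lemma tan_facts (h : Cfg c x p v1 v2) (α b : Om K) :
    D c (up (Om K) x) (α • up (Om K) x + (up (Om K) v1 + b • up (Om K) v2)) = 0 ∧
    D c (α • up (Om K) x + (up (Om K) v1 + b • up (Om K) v2)) (up (Om K) x) = 0 ∧
    F c (α • up (Om K) x + (up (Om K) v1 + b • up (Om K) v2)) =
      F c (up (Om K) v1 + b • up (Om K) v2) := by
  have e0 : F c (up (Om K) x) = 0 := by rw [up_F, h.hx, map_zero]
  have e1 : D c (up (Om K) x) (up (Om K) v1) = 0 := by rw [up_D, h.h1, map_zero]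
  have e2 : D c (up (Om K) x) (up (Om K) v2) = 0 := by rw [up_D, h.h2, map_zero]
  have e3 : D c (up (Om K) v1) (up (Om K) x) = 0 := by rw [up_D, h.bad.1 _ h.h1, map_zero]
  have e4 : D c (up (Om K) v2) (up (Om K) x) = 0 := by rw [up_D, h.bad.1 _ h.h2, map_zero]
  have e5 : T c (up (Om K) v1) (up (Om K) v2) (up (Om K) x) = 0 := by
    rw [up_T, T_comm13, T_comm23, bad_T h.bad h.h1 h.h2, map_zero]
  have g1 : D c (up (Om K) x) (up (Om K) v1 + b • up (Om K) v2) = 0 := by
    rw [D_add2, D_smul2, e1, e2]; ring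
  have g2 : D c (up (Om K) v1 + b • up (Om K) v2) (up (Om K) x) = 0 := by
    rw [D_add1, D_smul1, T_smul2, e3, e4, e5]; ring
  refine ⟨?_, ?_, ?_⟩
  · rw [D_add2, D_smul2, D_self, e0, g1]; ring
  · rw [D_add1, D_smul1, T_smul1, T_aba, D_self, e0, g1, g2]; ring
  · rw [F_add, F_smul, D_smul1, D_smul2, e0, g1, g2]; ring

lemma wv_comb (l b : Om K) : wv c x p v1 l + b • wv c x p v2 l =
    (mv c x p v1 l + b * mv c x p v2 l) • up (Om K) x +
      (up (Om K) v1 + b • up (Om K) v2) := by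
  unfold wv
  funext i
  simp only [Pi.add_apply, Pi.smul_apply, smul_eq_mul]
  ring

/-- the leading coefficient of the quadratic polynomial -/
lemma lead_ne (h : Cfg c x p v1 v2) {l : Om K} (hl : IsRt c x p l) :
    D c (wv c x p v2 l) (sv x p l) ≠ 0 := by
  intro h0
  apply h.est
  apply (algebraMap K (Om K)).injective
  have ha := D_svx_ne h hl
  have hN : mv c x p v2 l * D c (sv x p l) (up (Om K) x) = -(D c (sv x p l) (up (Om K) v2)) := by
    unfold mv; field_simp
  have e0 : F c (up (Om K) x) = 0 := by rw [up_F, h.hx, map_zero]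
  have e2 : D c (up (Om K) x) (up (Om K) v2) = 0 := by rw [up_D, h.h2, map_zero]
  have e4 : D c (up (Om K) v2) (up (Om K) x) = 0 := by rw [up_D, h.bad.1 _ h.h2, map_zero]
  have hNe : D c (sv x p l) (up (Om K) v2) = l * algebraMap K (Om K) (T c x p v2) +
      algebraMap K (Om K) (D c p v2) := by
    unfold sv
    rw [D_add1, D_smul1, T_smul1, e2, up_T, up_D]; ring
  rw [hNe, D_svx h.hx] at hN
  rw [D_svx h.hx] at ha
  have hD : D c (wv c x p v2 l) (sv x p l) = mv c x p v2 l ^ 2 * algebraMap K (Om K) (D c x p) +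
      mv c x p v2 l * algebraMap K (Om K) (T c x p v2) + algebraMap K (Om K) (D c v2 p) := by
    unfold wv sv
    rw [D_add2, D_smul2, D_add1, D_add1, D_smul1, D_smul1, T_smul1, T_smul1, T_aba, D_self, e0,
      e2, e4, T_comm23 c (up (Om K) x) (up (Om K) v2) (up (Om K) p), up_D, up_D, up_T]
    ring
  rw [hD] at h0
  unfold IsRt at hl
  unfold Est
  simp only [map_add, map_sub, map_mul, map_pow, map_zero, map_ofNat]
  generalize algebraMap K (Om K) (D c x p) = d at *
  generalize algebraMap K (Om K) (D c p x) = e at *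
  generalize algebraMap K (Om K) (F c p) = g at *
  generalize algebraMap K (Om K) (T c x p v2) = t at *
  generalize algebraMap K (Om K) (D c p v2) = u at *
  generalize algebraMap K (Om K) (D c v2 p) = w at *
  generalize mv c x p v2 l = m at *
  -- `(2 d l + e)² h0`
  have h1 : (2 * d * l + e) ^ 2 * (m ^ 2 * d + m * t + w) = 0 := by rw [h0]; ring
  have h2 : (m * (2 * d * l + e)) ^ 2 * d + (m * (2 * d * l + e)) * (2 * d * l + e) * t +
      (2 * d * l + e) ^ 2 * w = 0 := by linear_combination h1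
  rw [hN] at h2
  linear_combination h2 + (t ^ 2 - 4 * d * w) * hl

lemma quad_expand (l b : Om K) :
    D c (wv c x p v1 l + b • wv c x p v2 l) (sv x p l) =
      D c (wv c x p v2 l) (sv x p l) * b ^ 2 +
      T c (wv c x p v1 l) (wv c x p v2 l) (sv x p l) * b + D c (wv c x p v1 l) (sv x p l) := by
  rw [D_add1, D_smul1, T_smul2]; ring

lemma fr_quad [Fintype K] (l b : Om K) :
    fr K (D c (wv c x p v1 l + b • wv c x p v2 l) (sv x p l)) =
      D c (wv c x p v1 (fr K l) + fr K b • wv c x p v2 (fr K l)) (sv x p (fr K l)) := by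
  rw [← mp_D, mp_add, mp_smul, fr_wv, fr_wv, fr_sv]

lemma F_pencil_expand (b : Om K) : F c (up (Om K) v1 + b • up (Om K) v2) =
    algebraMap K (Om K) (F c v2) * b ^ 3 + algebraMap K (Om K) (D c v2 v1) * b ^ 2 +
      algebraMap K (Om K) (D c v1 v2) * b + algebraMap K (Om K) (F c v1) := by
  rw [F_add, F_smul, D_smul1, D_smul2, up_F, up_F, up_D, up_D]; ring

lemma not_mul (h : LinearIndependent K ![x, v1, v2]) (a b : K) (hab : a ≠ 0 ∨ b ≠ 0) (t : K) :
    a • v1 + b • v2 ≠ t • x := by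
  intro h0
  rw [Fintype.linearIndependent_iff] at h
  have h3 := h ![-t, a, b] (by
    rw [Fin.sum_univ_three]
    simp only [Matrix.cons_val_zero, Matrix.cons_val_one, Matrix.cons_val]
    rw [add_assoc, h0]; simp)
  rcases hab with h4 | h4
  · exact h4 (by simpa using h3 1)
  · exact h4 (by simpa using h3 2)

lemma cubic_root_facts [Fintype K] (h : Cfg c x p v1 v2) {b : Om K}
    (hb : F c (up (Om K) v1 + b • up (Om K) v2) = 0) :
    fr K b ≠ b ∧ fr K (fr K b) ≠ b ∧ fr K (fr K b) ≠ fr K b ∧ fr K (fr K (fr K b)) = b ∧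
      F c (up (Om K) v1 + fr K b • up (Om K) v2) = 0 := by
  rw [F_pencil_expand] at hb ⊢
  refine cubic_facts _ _ _ _ ?_ ?_ b hb
  · refine bad_F h.bad h.h2 fun t ht => not_mul h.li 0 1 (Or.inr one_ne_zero) t ?_
    rw [zero_smul, zero_add, one_smul, ht]
  · intro t ht
    refine bad_F (w := v1 + t • v2) h.bad ?_ (fun s hs =>
      not_mul h.li 1 t (Or.inl one_ne_zero) s ?_) ?_
    · rw [D_add2, D_smul2, h.h1, h.h2]; ring
    · rw [one_smul, hs]
    · rw [F_add, F_smul, D_smul1, D_smul2]; linear_combination ht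

/-- the cubic and the quadratic polynomial have no common root -/
lemma no_common [Fintype K] (h : Cfg c x p v1 v2) {l : Om K} (hl : IsRt c x p l)
    (hfl : fr K (fr K l) = l) {b : Om K} (hb : F c (up (Om K) v1 + b • up (Om K) v2) = 0) :
    D c (wv c x p v1 l + b • wv c x p v2 l) (sv x p l) ≠ 0 := by
  intro h0
  obtain ⟨n1, n2, n3, n4, -⟩ := cubic_root_facts h hb
  have h1 : ∀ y, D c (wv c x p v1 l + y • wv c x p v2 l) (sv x p l) = 0 →
      D c (wv c x p v1 l + fr K (fr K y) • wv c x p v2 l) (sv x p l) = 0 := by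
    intro y hy
    have := congrArg (fun z => fr K (fr K z)) hy
    simp only [fr_quad, hfl, map_zero] at this
    exact this
  have h2 := h1 b h0
  have h3 := h1 _ h2
  rw [n4] at h3
  rw [quad_expand] at h0 h2 h3
  apply lead_ne h hl
  generalize D c (wv c x p v2 l) (sv x p l) = q2 at *
  generalize T c (wv c x p v1 l) (wv c x p v2 l) (sv x p l) = q1 at *
  generalize D c (wv c x p v1 l) (sv x p l) = q0 at *
  have e1 : (b - fr K b) * (q2 * (b + fr K b) + q1) = 0 := by linear_combination h0 - h3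
  have e2 : (b - fr K (fr K b)) * (q2 * (b + fr K (fr K b)) + q1) = 0 := by
    linear_combination h0 - h2
  have e3 := (mul_eq_zero.mp e1).resolve_left (sub_ne_zero.mpr (Ne.symm n1))
  have e4 := (mul_eq_zero.mp e2).resolve_left (sub_ne_zero.mpr (Ne.symm n2))
  have e5 : (fr K b - fr K (fr K b)) * q2 = 0 := by linear_combination e3 - e4
  exact (mul_eq_zero.mp e5).resolve_left (sub_ne_zero.mpr (Ne.symm n3))

lemma exists_quad_root [Fintype K] (h : Cfg c x p v1 v2) {l : Om K} (hl : IsRt c x p l) :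
    ∃ a : Om K, D c (wv c x p v1 l + a • wv c x p v2 l) (sv x p l) = 0 := by
  have hne := lead_ne h hl
  obtain ⟨a, ha⟩ := IsAlgClosed.exists_root
    (C (D c (wv c x p v2 l) (sv x p l)) * X ^ 2 +
      C (T c (wv c x p v1 l) (wv c x p v2 l) (sv x p l)) * X +
      C (D c (wv c x p v1 l) (sv x p l))) (by
        rw [degree_quadratic hne]; norm_num)
  refine ⟨a, ?_⟩
  rw [quad_expand]
  simpa [IsRoot] using ha

lemma F_fv (h : Cfg c x p v1 v2) {l : Om K} (hl : IsRt c x p l) :
    F c (fv c x p v1 v2 l) = 0 := by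
  unfold fv
  apply F_third
  · rw [mp_F, F_sv h.hx hl, map_zero]
  · unfold Wv
    rw [D_add2, D_smul2, mp_D, mp_D, D_sv_wv h hl, D_sv_wv h hl, map_zero]
    ring

/-- the value at a root of the quadratic polynomial -/
lemma ev_fv_root (l : Om K) {a : Om K}
    (ha : D c (wv c x p v1 l + a • wv c x p v2 l) (sv x p l) = 0) :
    mp (ev a) (fv c x p v1 v2 l) =
      F c (wv c x p v1 l + a • wv c x p v2 l) • sv x p l := by
  rw [ev_fv, ha, neg_zero, zero_smul, add_zero]

lemma F_w_eq (h : Cfg c x p v1 v2) (l b : Om K) :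
    F c (wv c x p v1 l + b • wv c x p v2 l) = F c (up (Om K) v1 + b • up (Om K) v2) := by
  rw [wv_comb, (tan_facts h _ _).2.2]

/-- the value at a root of the cubic polynomial -/
lemma ev_fv_cubic (h : Cfg c x p v1 v2) (l : Om K) {b : Om K}
    (hb : F c (up (Om K) v1 + b • up (Om K) v2) = 0) :
    mp (ev b) (fv c x p v1 v2 l) =
      (-(D c (wv c x p v1 l + b • wv c x p v2 l) (sv x p l))) •
        (wv c x p v1 l + b • wv c x p v2 l) := by
  rw [ev_fv, F_w_eq h, hb, zero_smul, zero_add]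

lemma Dss (hx : F c x = 0) {l m : Om K} (hl : IsRt c x p l)
    (hm : algebraMap K (Om K) (D c x p) * (l + m) = -algebraMap K (Om K) (D c p x)) :
    D c (sv x p l) (sv x p m) = -(algebraMap K (Om K) (D c x p) * (l - m) ^ 2) := by
  have e : sv x p m = sv x p l + (m - l) • up (Om K) x := by
    unfold sv; funext i
    simp only [Pi.add_apply, Pi.smul_apply, smul_eq_mul]
    ring
  rw [e, D_add2, D_smul2, D_self, F_sv hx hl, D_svx hx]
  linear_combination (m - l) * hm

end CaseC

end Pool.Agent.R867.Cub
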