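import Pool.Agent.R867.Cub.CaseC

set_option autoImplicit false

namespace Pool.Agent.R867.Cub

open Polynomial

section CaseD

variable {K : Type*} [Field K] {c : Fin 4 → Fin 4 → Fin 4 → K} {x p v1 v2 : Fin 4 → K}

lemma secant_value (hx : F c x = 0) {l m : Om K} (hl : IsRt c x p l) (hm : IsRt c x p m)
    (hlm : algebraMap K (Om K) (D c x p) * (l + m) = -algebraMap K (Om K) (D c p x)) :
    D c (sv x p m) (sv x p l) • sv x p l + (-(D c (sv x p l) (sv x p m))) • sv x p m =
      (-(algebraMap K (Om K) (D c x p) * (l - m) ^ 3)) • up (Om K) x := by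
  rw [Dss hx hl hlm, Dss hx hm (by linear_combination hlm)]
  unfold sv
  funext i
  simp only [Pi.add_apply, Pi.smul_apply, smul_eq_mul]
  ring

/-- both points over `p` are rational -/
lemma good_C1a [Fintype K] (h : Cfg c x p v1 v2) {l m : Om K} (hl : IsRt c x p l)
    (hm : IsRt c x p m)
    (hlm : algebraMap K (Om K) (D c x p) * (l + m) = -algebraMap K (Om K) (D c p x))
    (hne : l ≠ m) (hfl : fr K l = l) (hfm : fr K m = m) : Good c x := by
  have hd : algebraMap K (Om K) (D c x p) ≠ 0 := by simpa using h.hp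
  obtain ⟨a, ha⟩ := exists_quad_root h hl
  obtain ⟨b, hb⟩ : ∃ b : Om K, F c (up (Om K) v1 + b • up (Om K) v2) = 0 := by
    have h3 : algebraMap K (Om K) (F c v2) ≠ 0 := by
      have : F c v2 ≠ 0 := by
        refine bad_F h.bad h.h2 fun t ht => not_mul h.li 0 1 (Or.inr one_ne_zero) t ?_
        rw [zero_smul, zero_add, one_smul, ht]
      simpa using this
    obtain ⟨b, hb⟩ := IsAlgClosed.exists_root
      (C (algebraMap K (Om K) (F c v2)) * X ^ 3 + C (algebraMap K (Om K) (D c v2 v1)) * X ^ 2 +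
        C (algebraMap K (Om K) (D c v1 v2)) * X + C (algebraMap K (Om K) (F c v1))) (by
          rw [degree_cubic h3]; norm_num)
    refine ⟨b, ?_⟩
    rw [F_pencil_expand]
    simpa [IsRoot] using hb
  have hFa : F c (wv c x p v1 l + a • wv c x p v2 l) ≠ 0 := by
    rw [F_w_eq h]
    intro h0
    exact no_common h hl (by rw [hfl, hfl]) h0 ha
  have hQb := no_common h hl (by rw [hfl, hfl]) hb
  obtain ⟨f, hf⟩ : ∃ f, f = fv c x p v1 v2 l := ⟨_, rfl⟩
  obtain ⟨S, hS⟩ : ∃ S, S = mp cst (sv x p m) := ⟨_, rfl⟩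
  have hfF : F c f = 0 := by rw [hf]; exact F_fv h hl
  have hSF : F c S = 0 := by rw [hS, mp_F, F_sv h.hx hm, map_zero]
  have evf : ∀ y : Om K, mp (ev y) (D c S f • f + (-(D c f S)) • S) =
      D c (sv x p m) (mp (ev y) f) • mp (ev y) f + (-(D c (mp (ev y) f) (sv x p m))) •
        sv x p m := by
    intro y
    rw [mp_add, mp_smul, mp_smul, map_neg, ← mp_D, ← mp_D, hS, mp_ev_cst]
  refine good_of_descent (D c S f • f + (-(D c f S)) • S) (F_secant c f S hfF hSF) ?_
    ⟨a, F c (wv c x p v1 l + a • wv c x p v2 l) ^ 2 *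
      (-(algebraMap K (Om K) (D c x p) * (l - m) ^ 3)), ?_, ?_⟩ ⟨b, ?_⟩
  · rw [mp_add, mp_smul, mp_smul, map_neg, ← mp_D, ← mp_D, hf, fr_fv, hS, mp_frX_cst, fr_sv, hfl,
      hfm]
  · exact mul_ne_zero (pow_ne_zero _ hFa) (neg_ne_zero.mpr (mul_ne_zero hd
      (pow_ne_zero _ (sub_ne_zero.mpr hne))))
  · rw [evf, hf, ev_fv_root _ ha, D_smul2, D_smul1]
    have hsec := secant_value h.hx hl hm hlm
    generalize F c (wv c x p v1 l + a • wv c x p v2 l) = A at *
    generalize D c (sv x p m) (sv x p l) = d1 at *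
    generalize D c (sv x p l) (sv x p m) = d2 at *
    funext i
    have hi := congrFun hsec i
    simp only [Pi.add_apply, Pi.smul_apply, smul_eq_mul] at hi ⊢
    linear_combination A ^ 2 * hi
  · intro κ hκ
    have h1 := congrArg (D c (up (Om K) x)) hκ
    rw [D_smul2, D_self, up_F, h.hx, map_zero, mul_zero, mul_zero, evf, D_add2, D_smul2, D_smul2,
      hf, ev_fv_cubic h l hb] at h1
    have h2 : D c (up (Om K) x) (wv c x p v1 l + b • wv c x p v2 l) = 0 := by
      rw [wv_comb]; exact (tan_facts h _ _).1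
    have h3 : D c (wv c x p v1 l + b • wv c x p v2 l) (up (Om K) x) = 0 := by
      rw [wv_comb]; exact (tan_facts h _ _).2.1
    have h4 : D c (wv c x p v1 l + b • wv c x p v2 l) (sv x p m) =
        D c (wv c x p v1 l + b • wv c x p v2 l) (sv x p l) := by
      have e : sv x p m = sv x p l + (m - l) • up (Om K) x := by
        unfold sv; funext i
        simp only [Pi.add_apply, Pi.smul_apply, smul_eq_mul]
        ring
      rw [e, D_add2, D_smul2, h3]; ring
    have h5 : D c (up (Om K) x) (sv x p m) = algebraMap K (Om K) (D c x p) := by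
      unfold sv
      rw [D_add2, D_smul2, D_self, up_F, h.hx, map_zero, up_D]; ring
    rw [D_smul2, D_smul2, h2, D_smul1, h4, h5] at h1
    have h6 : D c (wv c x p v1 l + b • wv c x p v2 l) (sv x p l) ^ 3 *
        algebraMap K (Om K) (D c x p) = 0 := by linear_combination -h1
    exact mul_ne_zero (pow_ne_zero _ hQb) hd h6

/-- evaluation at a polynomial -/
noncomputable def cp (g : (Om K)[X]) : (Om K)[X] →ₐ[K] (Om K)[X] :=
  (aeval g : (Om K)[X] →ₐ[Om K] (Om K)[X]).restrictScalars K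

lemma cp_apply (g P : (Om K)[X]) : cp g P = P.comp g := by
  show aeval g P = _
  rw [aeval_def, Polynomial.algebraMap_eq]
  rfl

lemma ev_cp (b : Om K) (g P : (Om K)[X]) : ev b (cp g P) = ev (g.eval b) P := by
  rw [ev_apply, cp_apply, ev_apply, eval_comp]

lemma frX_cp [Fintype K] (g P : (Om K)[X]) : frX K (cp g P) = cp (frX K g) (frX K P) := by
  rw [cp_apply, cp_apply]
  simp only [frX, Polynomial.mapAlgHom, Polynomial.coe_mapRingHom, AlgHom.coe_mk]
  exact Polynomial.map_comp _ _ _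

lemma mp_ev_cp (b : Om K) (g : (Om K)[X]) (z : Fin 4 → (Om K)[X]) :
    mp (ev b) (mp (cp g) z) = mp (ev (g.eval b)) z := by
  funext i; simp [ev_cp]

/-- the two points over `p` are conjugate -/
lemma good_C1b [Fintype K] [PerfectField K] (h : Cfg c x p v1 v2) {l m : Om K}
    (hl : IsRt c x p l) (hm : IsRt c x p m)
    (hlm : algebraMap K (Om K) (D c x p) * (l + m) = -algebraMap K (Om K) (D c p x))
    (hne : l ≠ m) (hfl : fr K l = m) (hfm : fr K m = l) : Good c x := by
  have hd : algebraMap K (Om K) (D c x p) ≠ 0 := by simpa using h.hp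
  have hlm0 : l - m ≠ 0 := sub_ne_zero.mpr hne
  obtain ⟨a, ha⟩ := exists_quad_root h hl
  obtain ⟨b, hb⟩ : ∃ b : Om K, F c (up (Om K) v1 + b • up (Om K) v2) = 0 := by
    have h3 : algebraMap K (Om K) (F c v2) ≠ 0 := by
      have : F c v2 ≠ 0 := by
        refine bad_F h.bad h.h2 fun t ht => not_mul h.li 0 1 (Or.inr one_ne_zero) t ?_
        rw [zero_smul, zero_add, one_smul, ht]
      simpa using this
    obtain ⟨b, hb⟩ := IsAlgClosed.exists_root
      (C (algebraMap K (Om K) (F c v2)) * X ^ 3 + C (algebraMap K (Om K) (D c v2 v1)) * X ^ 2 +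
        C (algebraMap K (Om K) (D c v1 v2)) * X + C (algebraMap K (Om K) (F c v1))) (by
          rw [degree_cubic h3]; norm_num)
    refine ⟨b, ?_⟩
    rw [F_pencil_expand]
    simpa [IsRoot] using hb
  have hfl2 : fr K (fr K l) = l := by rw [hfl, hfm]
  have hfm2 : fr K (fr K m) = m := by rw [hfm, hfl]
  obtain ⟨n1, n2, n3, n4, hb'⟩ := cubic_root_facts h hb
  have hFa : F c (wv c x p v1 l + a • wv c x p v2 l) ≠ 0 := by
    rw [F_w_eq h]
    intro h0
    exact no_common h hl hfl2 h0 ha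
  have ha' : D c (wv c x p v1 m + fr K a • wv c x p v2 m) (sv x p m) = 0 := by
    have := congrArg (fr K) ha
    rwa [fr_quad, hfl, map_zero] at this
  have hFa' : F c (wv c x p v1 m + fr K a • wv c x p v2 m) ≠ 0 := by
    rw [F_w_eq h]
    intro h0
    exact no_common h hm hfm2 h0 ha'
  have hQb := no_common h hl hfl2 hb
  have hQb' := no_common h hm hfm2 hb'
  -- interpolation
  obtain ⟨β2, hβ2⟩ : ∃ β, β = (a - fr K a) / (l - m) := ⟨_, rfl⟩
  obtain ⟨β1, hβ1⟩ : ∃ β, β = a - l * β2 := ⟨_, rfl⟩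
  obtain ⟨γ2, hγ2⟩ : ∃ β, β = (b - fr K b) / (l - m) := ⟨_, rfl⟩
  obtain ⟨γ1, hγ1⟩ : ∃ β, β = b - l * γ2 := ⟨_, rfl⟩
  obtain ⟨g1, g2, u0, u1, i1, i2, i3, i4⟩ := interp (K := K) β1 β2 γ1 γ2
  have hG : ∀ P : K[X], frX K (P.map (algebraMap K (Om K))) = P.map (algebraMap K (Om K)) := by
    intro P
    simp only [frX, Polynomial.mapAlgHom, Polynomial.coe_mapRingHom, AlgHom.coe_mk]
    rw [Polynomial.map_map]
    congr 1
    exact (fr K).comp_algebraMap
  obtain ⟨g, hg⟩ : ∃ g, g = g1.map (algebraMap K (Om K)) + C l * g2.map (algebraMap K (Om K)) :=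
    ⟨_, rfl⟩
  obtain ⟨g', hg'⟩ : ∃ g, g = g1.map (algebraMap K (Om K)) + C m * g2.map (algebraMap K (Om K)) :=
    ⟨_, rfl⟩
  have frC : ∀ y : Om K, frX K (C y) = C (fr K y) := fun y => by
    rw [← cst_apply, frX_cst, cst_apply]
  have hgg' : frX K g = g' := by
    rw [hg, hg', map_add, map_mul, hG, hG, frC, hfl]
  have hg'g : frX K g' = g := by
    rw [hg, hg', map_add, map_mul, hG, hG, frC, hfm]
  have e1 : g.eval u0 = a := by
    rw [hg, eval_add, eval_mul, eval_C, eval_map_algebraMap, eval_map_algebraMap, i1, i2, hβ1]; ring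
  have e2 : g'.eval u0 = fr K a := by
    rw [hg', eval_add, eval_mul, eval_C, eval_map_algebraMap, eval_map_algebraMap, i1, i2, hβ1, hβ2]
    field_simp; ring
  have e3 : g.eval u1 = b := by
    rw [hg, eval_add, eval_mul, eval_C, eval_map_algebraMap, eval_map_algebraMap, i3, i4, hγ1]; ring
  have e4 : g'.eval u1 = fr K b := by
    rw [hg', eval_add, eval_mul, eval_C, eval_map_algebraMap, eval_map_algebraMap, i3, i4, hγ1, hγ2]
    field_simp; ring
  obtain ⟨f, hf⟩ : ∃ f, f = mp (cp g) (fv c x p v1 v2 l) := ⟨_, rfl⟩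
  obtain ⟨f', hf'⟩ : ∃ f, f = mp (cp g') (fv c x p v1 v2 m) := ⟨_, rfl⟩
  have hfF : F c f = 0 := by rw [hf, mp_F, F_fv h hl, map_zero]
  have hfF' : F c f' = 0 := by rw [hf', mp_F, F_fv h hm, map_zero]
  have s1 : mp (frX K) f = f' := by
    have h1 := fr_fv (c := c) x p v1 v2 l
    rw [hfl] at h1
    rw [hf, hf', ← h1]
    funext i
    simp only [mp_apply]
    rw [frX_cp, hgg']
  have s2 : mp (frX K) f' = f := by
    have h1 := fr_fv (c := c) x p v1 v2 m
    rw [hfm] at h1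
    rw [hf, hf', ← h1]
    funext i
    simp only [mp_apply]
    rw [frX_cp, hg'g]
  have evf : ∀ y : Om K, mp (ev y) (C ((l - m)⁻¹) • (D c f' f • f + (-(D c f f')) • f')) =
      (l - m)⁻¹ • (D c (mp (ev y) f') (mp (ev y) f) • mp (ev y) f +
        (-(D c (mp (ev y) f) (mp (ev y) f'))) • mp (ev y) f') := by
    intro y
    rw [mp_smul, mp_add, mp_smul, mp_smul, map_neg, ← mp_D, ← mp_D, ← cst_apply, ev_cst]
  have v0 : mp (ev u0) f = F c (wv c x p v1 l + a • wv c x p v2 l) • sv x p l := by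
    rw [hf, mp_ev_cp, e1, ev_fv_root _ ha]
  have v0' : mp (ev u0) f' = F c (wv c x p v1 m + fr K a • wv c x p v2 m) • sv x p m := by
    rw [hf', mp_ev_cp, e2, ev_fv_root _ ha']
  have v1e : mp (ev u1) f = (-(D c (wv c x p v1 l + b • wv c x p v2 l) (sv x p l))) •
        (wv c x p v1 l + b • wv c x p v2 l) := by
    rw [hf, mp_ev_cp, e3, ev_fv_cubic h _ hb]
  have v1e' : mp (ev u1) f' = (-(D c (wv c x p v1 m + fr K b • wv c x p v2 m) (sv x p m))) •
        (wv c x p v1 m + fr K b • wv c x p v2 m) := by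
    rw [hf', mp_ev_cp, e4, ev_fv_cubic h _ hb']
  obtain ⟨A, hA⟩ : ∃ A, A = F c (wv c x p v1 l + a • wv c x p v2 l) := ⟨_, rfl⟩
  obtain ⟨A', hA'⟩ : ∃ A, A = F c (wv c x p v1 m + fr K a • wv c x p v2 m) := ⟨_, rfl⟩
  rw [← hA] at v0 hFa
  rw [← hA'] at v0' hFa'
  refine good_of_descent (C ((l - m)⁻¹) • (D c f' f • f + (-(D c f f')) • f')) ?_ ?_
    ⟨u0, (l - m)⁻¹ * (A ^ 2 * A' ^ 2 * (-(algebraMap K (Om K) (D c x p) * (l - m) ^ 3))), ?_, ?_⟩
    ⟨u1, ?_⟩
  · rw [F_smul, F_secant c f f' hfF hfF', mul_zero]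
  · rw [mp_smul, mp_add, mp_smul, mp_smul, map_neg, ← mp_D, ← mp_D, s1, s2, frC, map_inv₀, map_sub,
      hfl, hfm]
    have e5 : (m - l)⁻¹ = -(l - m)⁻¹ := by rw [← neg_sub l m, inv_neg]
    rw [e5, map_neg]
    funext i
    simp only [Pi.add_apply, Pi.smul_apply, smul_eq_mul]
    ring
  · exact mul_ne_zero (inv_ne_zero hlm0) (mul_ne_zero (mul_ne_zero (pow_ne_zero _ hFa)
      (pow_ne_zero _ hFa')) (neg_ne_zero.mpr (mul_ne_zero hd (pow_ne_zero _ hlm0))))
  · rw [evf, v0, v0', D_smul2, D_smul1, D_smul2, D_smul1]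
    have hsec := secant_value h.hx hl hm hlm
    generalize D c (sv x p m) (sv x p l) = d1 at *
    generalize D c (sv x p l) (sv x p m) = d2 at *
    funext i
    have hi := congrFun hsec i
    simp only [Pi.add_apply, Pi.smul_apply, smul_eq_mul] at hi ⊢
    linear_combination (l - m)⁻¹ * A ^ 2 * A' ^ 2 * hi
  · intro κ hκ
    obtain ⟨ξ1, hξ1⟩ := exists_dual ![x, v1, v2] h.li ![0, 1, 0]
    obtain ⟨ξ2, hξ2⟩ := exists_dual ![x, v1, v2] h.li ![0, 0, 1]
    have a0 : dt ξ1 x = 0 := by simpa using hξ1 0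
    have a1 : dt ξ1 v1 = 1 := by simpa using hξ1 1
    have a2 : dt ξ1 v2 = 0 := by simpa using hξ1 2
    have b0 : dt ξ2 x = 0 := by simpa using hξ2 0
    have b1 : dt ξ2 v1 = 0 := by simpa using hξ2 1
    have b2 : dt ξ2 v2 = 1 := by simpa using hξ2 2
    obtain ⟨Q, hQ⟩ : ∃ Q, Q = D c (wv c x p v1 l + b • wv c x p v2 l) (sv x p l) := ⟨_, rfl⟩
    obtain ⟨Q', hQ'⟩ : ∃ Q, Q = D c (wv c x p v1 m + fr K b • wv c x p v2 m) (sv x p m) :=
      ⟨_, rfl⟩
    rw [← hQ] at v1e hQb
    rw [← hQ'] at v1e' hQb'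
    obtain ⟨α, hα⟩ : ∃ α : Om K, wv c x p v1 l + b • wv c x p v2 l = α • up (Om K) x +
      (up (Om K) v1 + b • up (Om K) v2) := ⟨_, wv_comb _ _⟩
    obtain ⟨α', hα'⟩ : ∃ α : Om K, wv c x p v1 m + fr K b • wv c x p v2 m = α • up (Om K) x +
      (up (Om K) v1 + fr K b • up (Om K) v2) := ⟨_, wv_comb _ _⟩
    rw [hα] at v1e
    rw [hα'] at v1e'
    obtain ⟨W, hW⟩ : ∃ W, W = α • up (Om K) x + (up (Om K) v1 + b • up (Om K) v2) := ⟨_, rfl⟩
    obtain ⟨W', hW'⟩ : ∃ W, W = α' • up (Om K) x + (up (Om K) v1 + fr K b • up (Om K) v2) :=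
      ⟨_, rfl⟩
    rw [← hW] at v1e
    rw [← hW'] at v1e'
    rw [evf, v1e, v1e', D_smul2, D_smul1, D_smul2, D_smul1] at hκ
    have hli0 : (l - m)⁻¹ ≠ 0 := inv_ne_zero hlm0
    have dW1 : dt (up (Om K) ξ1) W = 1 := by
      rw [hW, dt_add, dt_add, dt_smul, dt_smul, dt_up, dt_up, dt_up, a0, a1, a2]; simp
    have dW2 : dt (up (Om K) ξ2) W = b := by
      rw [hW, dt_add, dt_add, dt_smul, dt_smul, dt_up, dt_up, dt_up, b0, b1, b2]; simp
    have dW1' : dt (up (Om K) ξ1) W' = 1 := by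
      rw [hW', dt_add, dt_add, dt_smul, dt_smul, dt_up, dt_up, dt_up, a0, a1, a2]; simp
    have dW2' : dt (up (Om K) ξ2) W' = fr K b := by
      rw [hW', dt_add, dt_add, dt_smul, dt_smul, dt_up, dt_up, dt_up, b0, b1, b2]; simp
    have t1 := congrArg (dt (up (Om K) ξ1)) hκ
    have t2 := congrArg (dt (up (Om K) ξ2)) hκ
    simp only [dt_add, dt_smul, dW1, dW2, dW1', dW2', dt_up, a0, b0, map_zero] at t1 t2
    -- `D W W' = 0`
    have hDW : D c W W' = 0 := by
      have hbb : b - fr K b ≠ 0 := sub_ne_zero.mpr (Ne.symm n1)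
      have t3 : ((l - m)⁻¹ * Q ^ 2 * Q' ^ 2 * (b - fr K b)) * D c W W' = 0 := by
        linear_combination t2 - b * t1
      exact (mul_eq_zero.mp t3).resolve_left (mul_ne_zero (mul_ne_zero (mul_ne_zero hli0
        (pow_ne_zero _ hQb)) (pow_ne_zero _ hQb')) hbb)
    -- the derivative of the cubic at its simple root
    have hW'e : W' = W + ((α' - α) • up (Om K) x + (fr K b - b) • up (Om K) v2) := by
      rw [hW, hW']; funext i
      simp only [Pi.add_apply, Pi.smul_apply, smul_eq_mul]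
      ring
    have hWx : D c W (up (Om K) x) = 0 := by rw [hW]; exact (tan_facts h _ _).2.1
    have hWF : F c W = 0 := by rw [hW, (tan_facts h _ _).2.2, hb]
    rw [hW'e, D_add2, D_add2, D_smul2, D_smul2, D_self, hWx, hWF] at hDW
    have hDv : D c W (up (Om K) v2) = 0 := by
      have t4 : (fr K b - b) * D c W (up (Om K) v2) = 0 := by linear_combination hDW
      exact (mul_eq_zero.mp t4).resolve_left (sub_ne_zero.mpr n1)
    have e4' : T c (up (Om K) x) (up (Om K) v1) (up (Om K) v2) = 0 := by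
      rw [up_T, bad_T h.bad h.h1 h.h2, map_zero]
    have e5' : D c (up (Om K) x) (up (Om K) v2) = 0 := by rw [up_D, h.h2, map_zero]
    have e6' : D c (up (Om K) v2) (up (Om K) x) = 0 := by rw [up_D, h.bad.1 _ h.h2, map_zero]
    have hder : 3 * algebraMap K (Om K) (F c v2) * b ^ 2 +
        2 * algebraMap K (Om K) (D c v2 v1) * b + algebraMap K (Om K) (D c v1 v2) = 0 := by
      rw [hW, D_add1, D_add1, D_smul1, D_smul1, T_smul1, T_add2, T_smul2, T_smul2, T_baa, T_baa,
        D_self, e4', e5', e6', up_D, up_D, up_F] at hDv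
      linear_combination hDv
    have hroots : ∀ y, F c (up (Om K) v1 + y • up (Om K) v2) = 0 → y ≠ b →
        algebraMap K (Om K) (F c v2) * (y + 2 * b) + algebraMap K (Om K) (D c v2 v1) = 0 := by
      intro y hy hyb
      rw [F_pencil_expand] at hy hb
      have t5 : (y - b) ^ 2 * (algebraMap K (Om K) (F c v2) * (y + 2 * b) +
          algebraMap K (Om K) (D c v2 v1)) = 0 := by
        linear_combination hy - hb - (y - b) * hder
      exact (mul_eq_zero.mp t5).resolve_left (pow_ne_zero _ (sub_ne_zero.mpr hyb))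
    obtain ⟨-, -, -, -, hb''⟩ := cubic_root_facts h hb'
    have r1 := hroots _ hb' n1
    have r2 := hroots _ hb'' n2
    have h3 : algebraMap K (Om K) (F c v2) ≠ 0 := by
      have : F c v2 ≠ 0 := by
        refine bad_F h.bad h.h2 fun t ht => not_mul h.li 0 1 (Or.inr one_ne_zero) t ?_
        rw [zero_smul, zero_add, one_smul, ht]
      simpa using this
    apply n3
    apply mul_left_cancel₀ h3
    linear_combination r2 - r1

end CaseD

end Pool.Agent.R867.Cub
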