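import Pool.Agent.R867.Cub.Main

set_option autoImplicit false

namespace Pool.Agent.R867.Cub

open MvPolynomial

section Conv

variable {K : Type*} [Field K]

/-- every cubic form comes from a tensor -/
lemma exists_tensor (G : MvPolynomial (Fin 4) K) (hG : G.IsHomogeneous 3) :
    ∃ c : Fin 4 → Fin 4 → Fin 4 → K, G = F c (fun i => (X i : MvPolynomial (Fin 4) K)) := by
  classical
  have h0 : ∀ s : Finset (Fin 4 →₀ ℕ), (∀ m ∈ s, m ∈ G.support) →
      ∃ c : Fin 4 → Fin 4 → Fin 4 → K, ∑ m ∈ s, monomial m (G.coeff m) =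
        F c (fun i => (X i : MvPolynomial (Fin 4) K)) := by
    intro s
    induction s using Finset.induction_on with
    | empty =>
      intro _
      refine ⟨fun _ _ _ => 0, ?_⟩
      simp [F, B]
    | insert m s hm ih =>
      intro hs
      obtain ⟨c, hc⟩ := ih fun m' hm' => hs m' (Finset.mem_insert_of_mem hm')
      have hmG : G.coeff m ≠ 0 := by
        have := hs m (Finset.mem_insert_self _ _)
        rwa [mem_support_iff] at this
      have hdeg : m.degree = 3 := by
        have h7 : Finsupp.weight 1 m = 3 := hG hmG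
        rw [Finsupp.degree_eq_weight_one (R := ℕ)]
        exact h7
      have h1 : ∀ (n : ℕ) (m' : Fin 4 →₀ ℕ), m'.degree = n + 1 →
          ∃ (i : Fin 4) (m'' : Fin 4 →₀ ℕ), m''.degree = n ∧ m' = Finsupp.single i 1 + m'' := by
        intro n m' h
        have hne : m' ≠ 0 := by
          rintro rfl
          simp at h
        obtain ⟨i, hi⟩ : ∃ i, m' i ≠ 0 := by
          by_contra hcon
          push Not at hcon
          exact hne (Finsupp.ext hcon)
        have hle : Finsupp.single i 1 ≤ m' := by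
          rw [Finsupp.single_le_iff]
          omega
        refine ⟨i, m' - Finsupp.single i 1, ?_, (add_tsub_cancel_of_le hle).symm⟩
        have h2 := congrArg Finsupp.degree (add_tsub_cancel_of_le hle)
        rw [map_add, Finsupp.degree_single, h] at h2
        omega
      obtain ⟨i, m1, hm1, e1⟩ := h1 2 m hdeg
      obtain ⟨j, m2, hm2, e2⟩ := h1 1 m1 hm1
      obtain ⟨k, m3, hm3, e3⟩ := h1 0 m2 hm2
      have e4 : m3 = 0 := by
        rwa [Finsupp.degree_eq_zero_iff] at hm3
      refine ⟨fun i' j' k' => c i' j' k' + if i' = i ∧ j' = j ∧ k' = k then G.coeff m else 0, ?_⟩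
      rw [Finset.sum_insert hm, hc]
      have h5 : monomial m (G.coeff m) = algebraMap K (MvPolynomial (Fin 4) K) (G.coeff m) *
          (X i * X j * X k) := by
        rw [e1, e2, e3, e4, add_zero, algebraMap_eq, X, X, X, monomial_mul, monomial_mul,
          C_mul_monomial, mul_one, mul_one, mul_one, add_assoc]
      rw [h5]
      simp only [F, B, map_add, add_mul, Finset.sum_add_distrib]
      rw [add_comm]
      congr 1
      rw [Finset.sum_eq_single i, Finset.sum_eq_single j, Finset.sum_eq_single k]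
      · simp
      · intro b _ hb
        simp [hb]
      · simp
      · intro b _ hb
        exact Finset.sum_eq_zero fun _ _ => by simp [hb]
      · simp
      · intro b _ hb
        exact Finset.sum_eq_zero fun _ _ => Finset.sum_eq_zero fun _ _ => by simp [hb]
      · simp
  obtain ⟨c, hc⟩ := h0 G.support fun _ h => h
  exact ⟨c, by rw [← hc]; exact G.as_sum⟩

variable {R : Type*} [CommRing R] [Algebra K R]

lemma aeval_F (c : Fin 4 → Fin 4 → Fin 4 → K) (v : Fin 4 → R) :
    aeval v (F c (fun i => (X i : MvPolynomial (Fin 4) K))) = F c v := by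
  rw [← mp_F c (aeval v : MvPolynomial (Fin 4) K →ₐ[K] R)]
  congr 1
  funext i
  simp

lemma pderiv_F (c : Fin 4 → Fin 4 → Fin 4 → K) (i : Fin 4) :
    pderiv i (F c (fun i => (X i : MvPolynomial (Fin 4) K))) =
      D c (fun i => (X i : MvPolynomial (Fin 4) K)) (Pi.single i 1) := by
  simp only [F, D, B, map_sum, ← Finset.sum_add_distrib]
  refine Finset.sum_congr rfl fun p _ => Finset.sum_congr rfl fun q _ =>
    Finset.sum_congr rfl fun r _ => ?_
  simp only [algebraMap_eq, Derivation.leibniz, pderiv_C, pderiv_X, smul_eq_mul, mul_zero,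
    add_zero, Pi.single_apply]
  by_cases h1 : p = i <;> by_cases h2 : q = i <;> by_cases h3 : r = i <;>
    simp only [h1, h2, h3, if_true, if_false] <;> ring

lemma aeval_pderiv_F (c : Fin 4 → Fin 4 → Fin 4 → K) (v : Fin 4 → R) (i : Fin 4) :
    aeval v (pderiv i (F c (fun i => (X i : MvPolynomial (Fin 4) K)))) =
      D c v (Pi.single i 1) := by
  rw [pderiv_F, ← mp_D c (aeval v : MvPolynomial (Fin 4) K →ₐ[K] R)]
  congr 1
  · funext j
    simp
  · funext j
    simp [Pi.single_apply]

end Conv

section Hom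

variable {K : Type*} [Field K]

open Polynomial in
/-- removing the common factor -/
lemma exists_primitive (f : Fin 4 → K[X]) (hf : f ≠ 0) :
    ∃ (d : K[X]) (g u : Fin 4 → K[X]), d ≠ 0 ∧ (∀ i, f i = d * g i) ∧ ∑ i, u i * g i = 1 := by
  classical
  obtain ⟨d, hd⟩ : ∃ d : K[X], Ideal.span (Set.range f) = Ideal.span {d} :=
    (IsPrincipalIdealRing.principal (Ideal.span (Set.range f))).principal
  have h1 : ∀ i, ∃ g : K[X], f i = d * g := by
    intro i
    have : f i ∈ Ideal.span {d} := by
      rw [← hd]; exact Ideal.subset_span ⟨i, rfl⟩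
    exact Ideal.mem_span_singleton.mp this
  choose g hg using h1
  have h2 : d ∈ Ideal.span (Set.range f) := by
    rw [hd]; exact Ideal.mem_span_singleton_self d
  rw [Ideal.mem_span_range_iff_exists_fun] at h2
  obtain ⟨u, hu⟩ := h2
  have hd0 : d ≠ 0 := by
    rintro rfl
    apply hf
    funext i
    rw [hg i, zero_mul]; rfl
  refine ⟨d, g, u, hd0, hg, ?_⟩
  have h3 : d * ∑ i, u i * g i = d * 1 := by
    rw [mul_one]
    conv_rhs => rw [← hu]
    rw [Finset.mul_sum]
    refine Finset.sum_congr rfl fun i _ => ?_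
    rw [hg i]; ring
  exact mul_left_cancel₀ hd0 h3

/-- homogenisation in degree `n` -/
noncomputable def hm (n : ℕ) (g : Polynomial K) : MvPolynomial (Fin 2) K :=
  ∑ j ∈ Finset.range (n + 1), C (g.coeff j) * (X 0 ^ j * X 1 ^ (n - j))

lemma hm_hom (n : ℕ) (g : Polynomial K) : (hm n g).IsHomogeneous n := by
  apply IsHomogeneous.sum
  intro j hj
  have hj' : j ≤ n := by
    rw [Finset.mem_range] at hj; omega
  have h1 : (C (g.coeff j) * (X 0 ^ j * X 1 ^ (n - j)) : MvPolynomial (Fin 2) K).IsHomogeneous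
      (0 + (1 * j + 1 * (n - j))) :=
    (isHomogeneous_C _ _).mul (((isHomogeneous_X _ _).pow _).mul ((isHomogeneous_X _ _).pow _))
  have h2 : 0 + (1 * j + 1 * (n - j)) = n := by omega
  rwa [h2] at h1

lemma aeval_hm {L : Type*} [Field L] [Algebra K L] (n : ℕ) (g : Polynomial K)
    (hg : g.natDegree ≤ n) (p : Fin 2 → L) (hp : p 1 ≠ 0) :
    aeval p (hm n g) = p 1 ^ n * Polynomial.aeval (p 0 / p 1) g := by
  rw [Polynomial.aeval_eq_sum_range' (n := n + 1) (by omega), hm, map_sum, Finset.mul_sum]
  refine Finset.sum_congr rfl fun j hj => ?_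
  have hj' : j ≤ n := by
    rw [Finset.mem_range] at hj; omega
  obtain ⟨k, rfl⟩ := Nat.exists_eq_add_of_le hj'
  simp only [map_mul, map_pow, aeval_C, aeval_X, Algebra.smul_def, add_tsub_cancel_left]
  rw [div_pow, pow_add]
  field_simp

lemma aeval_hm' {L : Type*} [Field L] [Algebra K L] (n : ℕ) (g : Polynomial K)
    (p : Fin 2 → L) (hp : p 1 = 0) :
    aeval p (hm n g) = p 0 ^ n * algebraMap K L (g.coeff n) := by
  rw [hm, map_sum, Finset.sum_eq_single n]
  · simp [mul_comm]
  · intro j hj hjn
    have : n - j ≠ 0 := by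
      rw [Finset.mem_range] at hj; omega
    simp [hp, this]
  · simp

/-- a curve given by polynomials extends to the projective line -/
lemma exists_forms (G : MvPolynomial (Fin 4) K) (hG : G.IsHomogeneous 3)
    (g u : Fin 4 → Polynomial K) (hgu : ∑ i, u i * g i = 1)
    (hgG : aeval g G = 0) :
    ∃ (n : ℕ) (h : Fin 4 → MvPolynomial (Fin 2) K), (∀ i, (h i).IsHomogeneous n) ∧
      (∀ p : Fin 2 → AlgebraicClosure K, p ≠ 0 → ∃ i, aeval p (h i) ≠ 0) ∧
      aeval h G = 0 ∧
      ∀ (a : AlgebraicClosure K) (i : Fin 4), aeval ![a, 1] (h i) = Polynomial.aeval a (g i) := by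
  classical
  have hcop : ∀ a : AlgebraicClosure K, ∃ i, Polynomial.aeval a (g i) ≠ 0 := by
    intro a
    by_contra hcon
    push Not at hcon
    have := congrArg (Polynomial.aeval a) hgu
    simp [hcon] at this
  obtain ⟨n, hn⟩ : ∃ n, n = Finset.univ.sup (fun i => (g i).natDegree) := ⟨_, rfl⟩
  have hle : ∀ i, (g i).natDegree ≤ n := fun i => by
    rw [hn]; exact Finset.le_sup (f := fun i => (g i).natDegree) (Finset.mem_univ i)
  have hne : ∃ i, (g i).coeff n ≠ 0 := by
    obtain ⟨i, -, hi⟩ := Finset.exists_mem_eq_sup Finset.univ ⟨0, Finset.mem_univ _⟩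
      (fun i => (g i).natDegree)
    by_cases hgi : g i = 0
    · have hn0 : n = 0 := by rw [hn, hi, hgi]; simp
      obtain ⟨j, hj⟩ := hcop 0
      refine ⟨j, ?_⟩
      rw [hn0]
      intro hc
      apply hj
      rw [← Polynomial.coeff_zero_eq_aeval_zero', hc, map_zero]
    · refine ⟨i, ?_⟩
      rw [hn, hi]
      exact Polynomial.leadingCoeff_ne_zero.mpr hgi
  refine ⟨n, fun i => hm n (g i), fun i => hm_hom n _, ?_, ?_, ?_⟩
  · intro p hp
    by_cases hp1 : p 1 = 0
    · have hp0 : p 0 ≠ 0 := by
        intro h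
        apply hp
        funext i
        fin_cases i
        · exact h
        · exact hp1
      obtain ⟨i, hi⟩ := hne
      refine ⟨i, ?_⟩
      rw [aeval_hm' n (g i) p hp1]
      exact mul_ne_zero (pow_ne_zero _ hp0) (by simpa using hi)
    · obtain ⟨i, hi⟩ := hcop (p 0 / p 1)
      refine ⟨i, ?_⟩
      rw [aeval_hm n (g i) (hle i) p hp1]
      exact mul_ne_zero (pow_ne_zero _ hp1) hi
  · obtain ⟨H, hH⟩ : ∃ H, H = aeval (fun i => hm n (g i)) G := ⟨_, rfl⟩
    have h1 : ∀ p : Fin 2 → AlgebraicClosure K, p 1 ≠ 0 → aeval p H = 0 := by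
      intro p hp
      obtain ⟨c, hc⟩ := exists_tensor G hG
      rw [hH, hc, aeval_F]
      rw [← mp_F c (aeval p : MvPolynomial (Fin 2) K →ₐ[K] AlgebraicClosure K)]
      have h2 : (mp (aeval p : MvPolynomial (Fin 2) K →ₐ[K] AlgebraicClosure K)
          (fun i => hm n (g i))) =
          (p 1 ^ n) • mp (Polynomial.aeval (p 0 / p 1)) g := by
        funext i
        simp only [mp_apply, Pi.smul_apply, smul_eq_mul]
        exact aeval_hm n (g i) (hle i) p hp
      rw [h2, F_smul, mp_F]
      rw [hc, aeval_F] at hgG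
      rw [hgG, map_zero, mul_zero]
    rw [← hH]
    have h3 : X 1 * H = 0 := by
      apply MvPolynomial.map_injective (algebraMap K (AlgebraicClosure K))
        (algebraMap K (AlgebraicClosure K)).injective
      rw [map_zero]
      apply MvPolynomial.funext
      intro p
      rw [map_zero, eval_map, ← aeval_def, map_mul, aeval_X]
      by_cases hp : p 1 = 0
      · rw [hp, zero_mul]
      · rw [h1 p hp, mul_zero]
    exact (mul_eq_zero.mp h3).resolve_left (X_ne_zero 1)
  · intro a i
    have := aeval_hm n (g i) (hle i) (![a, 1] : Fin 2 → AlgebraicClosure K) (by simp)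
    simpa using this

end Hom

end Pool.Agent.R867.Cub
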