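import Pool.Agent.R867.Cub.Star

set_option autoImplicit false

namespace Pool.Agent.R867.Cub

open Polynomial

section Fin

variable {K : Type*} [Field K]

/-- elements fixed by Frobenius are in the base field -/
lemma mem_of_frob [Fintype K] {y : Om K} (hy : y ^ Fintype.card K = y) :
    ∃ a : K, algebraMap K (Om K) a = y := by
  classical
  have hne : (X ^ Fintype.card K - X : (Om K)[X]) ≠ 0 :=
    FiniteField.X_pow_card_sub_X_ne_zero _ Fintype.one_lt_card
  by_contra hcon
  push Not at hcon
  let S : Finset (Om K) := insert y (Finset.univ.image (algebraMap K (Om K)))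
  have hS : S.card = Fintype.card K + 1 := by
    rw [Finset.card_insert_of_notMem, Finset.card_image_of_injective _
      (algebraMap K (Om K)).injective, Finset.card_univ]
    intro h
    rw [Finset.mem_image] at h
    obtain ⟨a, -, ha⟩ := h
    exact hcon a ha
  apply hne
  apply Polynomial.eq_zero_of_natDegree_lt_card_of_eval_eq_zero' _ S
  · intro z hz
    rw [Finset.mem_insert, Finset.mem_image] at hz
    rw [eval_sub, eval_pow, eval_X, sub_eq_zero]
    rcases hz with rfl | ⟨a, -, rfl⟩
    · exact hy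
    · rw [← map_pow, FiniteField.pow_card]
  · rw [hS, FiniteField.X_pow_card_sub_X_natDegree_eq _ Fintype.one_lt_card]
    omega

lemma exists_poly_of_mem {u β : Om K} (h : β ∈ IntermediateField.adjoin K {u}) :
    ∃ p : K[X], aeval u p = β := by
  have h1 : β ∈ (IntermediateField.adjoin K {u}).toSubalgebra := h
  rw [IntermediateField.adjoin_simple_toSubalgebra_of_isAlgebraic
    (Algebra.IsAlgebraic.isAlgebraic u), Algebra.adjoin_singleton_eq_range_aeval] at h1
  obtain ⟨p, hp⟩ := h1
  exact ⟨p, hp⟩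

lemma exists_prim [PerfectField K] (S : Set (Om K)) (hS : S.Finite) :
    ∃ u : Om K, IntermediateField.adjoin K {u} = IntermediateField.adjoin K S := by
  have : Finite S := hS
  have hfd : FiniteDimensional K (IntermediateField.adjoin K S) :=
    IntermediateField.finiteDimensional_adjoin (fun x _ => Algebra.IsIntegral.isIntegral x)
  obtain ⟨α, hα⟩ := Field.exists_primitive_element K (IntermediateField.adjoin K S)
  refine ⟨α, ?_⟩
  have h1 := congrArg (IntermediateField.map (IntermediateField.adjoin K S).val) hα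
  rw [IntermediateField.adjoin_map, ← AlgHom.fieldRange_eq_map, IntermediateField.fieldRange_val,
    Set.image_singleton] at h1
  exact h1

/-- simultaneous interpolation at two algebraic points -/
lemma interp [Finite K] (β1 β2 γ1 γ2 : Om K) :
    ∃ (g1 g2 : K[X]) (u0 u1 : Om K), aeval u0 g1 = β1 ∧ aeval u0 g2 = β2 ∧
      aeval u1 g1 = γ1 ∧ aeval u1 g2 = γ2 := by
  classical
  let S : Set (Om K) := {β1, β2, γ1, γ2}
  have hSf : S.Finite := Set.toFinite _
  obtain ⟨u0, hu0⟩ := exists_prim S hSf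
  have hfd : FiniteDimensional K (IntermediateField.adjoin K {u0}) :=
    IntermediateField.adjoin.finiteDimensional (Algebra.IsIntegral.isIntegral u0)
  have hfin : Finite (IntermediateField.adjoin K {u0}) :=
    Module.finite_of_finite K
  have hinf : Infinite (Om K) := IsAlgClosed.instInfinite
  obtain ⟨β, hβ⟩ : ∃ β : Om K, β ∉ IntermediateField.adjoin K {u0} := by
    by_contra h
    push Not at h
    have : Finite (Om K) := Set.finite_univ_iff.mp
      (Set.Finite.subset (Set.toFinite ((IntermediateField.adjoin K {u0} : Set (Om K))))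
        (fun x _ => h x))
    exact not_finite (Om K)
  obtain ⟨u1, hu1⟩ := exists_prim (insert β S) (hSf.insert β)
  have hS0 : ∀ s ∈ S, s ∈ IntermediateField.adjoin K {u0} := fun s hs => by
    rw [hu0]; exact IntermediateField.subset_adjoin K S hs
  have hS1 : ∀ s ∈ S, s ∈ IntermediateField.adjoin K {u1} := fun s hs => by
    rw [hu1]; exact IntermediateField.subset_adjoin K _ (Set.mem_insert_of_mem _ hs)
  obtain ⟨p1, hp1⟩ := exists_poly_of_mem (hS0 β1 (by simp [S]))
  obtain ⟨p2, hp2⟩ := exists_poly_of_mem (hS0 β2 (by simp [S]))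
  obtain ⟨r1, hr1⟩ := exists_poly_of_mem (hS1 γ1 (by simp [S]))
  obtain ⟨r2, hr2⟩ := exists_poly_of_mem (hS1 γ2 (by simp [S]))
  have hi0 : IsIntegral K u0 := Algebra.IsIntegral.isIntegral u0
  have hi1 : IsIntegral K u1 := Algebra.IsIntegral.isIntegral u1
  have hne : minpoly K u0 ≠ minpoly K u1 := by
    intro h
    have h1 : Module.finrank K (IntermediateField.adjoin K {u0}) =
        Module.finrank K (IntermediateField.adjoin K {u1}) := by
      rw [IntermediateField.adjoin.finrank hi0, IntermediateField.adjoin.finrank hi1, h]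
    have hfd1 : FiniteDimensional K (IntermediateField.adjoin K {u1}) :=
      IntermediateField.adjoin.finiteDimensional hi1
    have hle : IntermediateField.adjoin K {u0} ≤ IntermediateField.adjoin K {u1} := by
      rw [hu0, hu1]
      exact IntermediateField.adjoin.mono K _ _ (Set.subset_insert _ _)
    have h2 := IntermediateField.eq_of_le_of_finrank_eq hle h1
    apply hβ
    rw [h2, hu1]
    exact IntermediateField.subset_adjoin K _ (Set.mem_insert _ _)
  have hcop : IsCoprime (minpoly K u0) (minpoly K u1) := by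
    rw [(minpoly.irreducible hi0).coprime_iff_not_dvd]
    intro hd
    apply hne
    exact (minpoly.eq_of_irreducible_of_monic (minpoly.irreducible hi1) (by
      obtain ⟨t, ht⟩ := hd
      have h3 := (minpoly.irreducible hi1).isUnit_or_isUnit ht
      rcases h3 with h3 | h3
      · exact absurd h3 (minpoly.irreducible hi0).not_isUnit
      · rw [ht, map_mul, minpoly.aeval, zero_mul]) (minpoly.monic hi1)).symm
  obtain ⟨A, B', hAB⟩ := hcop
  have e0 : aeval u0 (B' * minpoly K u1) = 1 := by
    have := congrArg (aeval u0) hAB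
    rw [map_add, map_mul, minpoly.aeval, mul_zero, zero_add, map_one] at this
    exact this
  have e1 : aeval u1 (A * minpoly K u0) = 1 := by
    have := congrArg (aeval u1) hAB
    rw [map_add, map_mul (aeval u1) B', minpoly.aeval, mul_zero, add_zero, map_one] at this
    exact this
  have e0' : aeval u0 (A * minpoly K u0) = 0 := by rw [map_mul, minpoly.aeval, mul_zero]
  have e1' : aeval u1 (B' * minpoly K u1) = 0 := by rw [map_mul, minpoly.aeval, mul_zero]
  refine ⟨p1 * (B' * minpoly K u1) + r1 * (A * minpoly K u0),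
    p2 * (B' * minpoly K u1) + r2 * (A * minpoly K u0), u0, u1, ?_, ?_, ?_, ?_⟩
  · rw [map_add, map_mul, map_mul (aeval u0) r1, e0, e0', hp1]; ring
  · rw [map_add, map_mul, map_mul (aeval u0) r2, e0, e0', hp2]; ring
  · rw [map_add, map_mul, map_mul (aeval u1) r1, e1, e1', hr1]; ring
  · rw [map_add, map_mul, map_mul (aeval u1) r2, e1, e1', hr2]; ring

/-- roots of a cubic without rational root and of a quadratic polynomial fixed by the square of
Frobenius -/
lemma cubic_facts [Fintype K] (a3 a2 a1 a0 : K) (h3 : a3 ≠ 0)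
    (hnr : ∀ t : K, a3 * t ^ 3 + a2 * t ^ 2 + a1 * t + a0 ≠ 0) (b : Om K)
    (hb : algebraMap K (Om K) a3 * b ^ 3 + algebraMap K (Om K) a2 * b ^ 2 +
      algebraMap K (Om K) a1 * b + algebraMap K (Om K) a0 = 0) :
    let φ := FiniteField.frobeniusAlgHom K (Om K)
    φ b ≠ b ∧ φ (φ b) ≠ b ∧ φ (φ b) ≠ φ b ∧ φ (φ (φ b)) = b ∧
      algebraMap K (Om K) a3 * (φ b) ^ 3 + algebraMap K (Om K) a2 * (φ b) ^ 2 +
      algebraMap K (Om K) a1 * (φ b) + algebraMap K (Om K) a0 = 0 := by
  intro φ
  have hφ : ∀ y, φ y = y ^ Fintype.card K := fun y => rfl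
  have hfix : ∀ y : Om K, φ y = y → ∃ a : K, algebraMap K (Om K) a = y := fun y hy => by
    rw [hφ] at hy; exact mem_of_frob hy
  have hinj : Function.Injective φ := φ.injective
  obtain ⟨A3, hA3⟩ : ∃ A, A = algebraMap K (Om K) a3 := ⟨_, rfl⟩
  obtain ⟨A2, hA2⟩ : ∃ A, A = algebraMap K (Om K) a2 := ⟨_, rfl⟩
  obtain ⟨A1, hA1⟩ : ∃ A, A = algebraMap K (Om K) a1 := ⟨_, rfl⟩
  obtain ⟨A0, hA0⟩ : ∃ A, A = algebraMap K (Om K) a0 := ⟨_, rfl⟩
  rw [← hA3, ← hA2, ← hA1, ← hA0] at hb ⊢
  have h30 : A3 ≠ 0 := by rw [hA3]; simpa using h3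
  have f3 : φ A3 = A3 := by rw [hA3, φ.commutes]
  have f2 : φ A2 = A2 := by rw [hA2, φ.commutes]
  have f1 : φ A1 = A1 := by rw [hA1, φ.commutes]
  have f0 : φ A0 = A0 := by rw [hA0, φ.commutes]
  have hroot : ∀ y, A3 * y ^ 3 + A2 * y ^ 2 + A1 * y + A0 = 0 →
      A3 * (φ y) ^ 3 + A2 * (φ y) ^ 2 + A1 * (φ y) + A0 = 0 := by
    intro y hy
    have := congrArg φ hy
    simpa only [map_add, map_mul, map_pow, f3, f2, f1, f0, map_zero] using this
  have hnK : ∀ y : Om K, A3 * y ^ 3 + A2 * y ^ 2 + A1 * y + A0 = 0 → φ y ≠ y := by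
    intro y hy h
    obtain ⟨a, ha⟩ := hfix y h
    apply hnr a
    apply (algebraMap K (Om K)).injective
    rw [← ha, hA3, hA2, hA1, hA0] at hy
    simpa using hy
  have c1 := hroot b hb
  have c2 := hroot _ c1
  have c3 := hroot _ c2
  have n1 := hnK b hb
  have n2 : φ (φ b) ≠ b := by
    intro h
    -- the third root
    have hbb : b - φ b ≠ 0 := sub_ne_zero.mpr (Ne.symm n1)
    have e1 : A3 * (b ^ 2 + b * φ b + φ b ^ 2) + A2 * (b + φ b) + A1 = 0 := by
      apply mul_left_cancel₀ hbb
      linear_combination hb - c1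
    obtain ⟨r, hr⟩ : ∃ r, r = -(A2 / A3) - b - φ b := ⟨_, rfl⟩
    have hr' : A3 * r = -A2 - A3 * b - A3 * φ b := by
      rw [hr]; field_simp
    have hrr : A3 * r ^ 3 + A2 * r ^ 2 + A1 * r + A0 = 0 := by
      have e2 : A3 * r ^ 3 + A2 * r ^ 2 + A1 * r + A0 =
          (r - b) * (r - φ b) * (A3 * r + A2 + A3 * b + A3 * φ b) := by
        linear_combination (r - b) * e1 + hb
      rw [e2, hr']; ring
    refine hnK r hrr ?_
    rw [hr, map_sub, map_sub, map_neg, map_div₀, f2, f3, h]; ring
  have n3 : φ (φ b) ≠ φ b := fun h => n1 (hinj h)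
  refine ⟨n1, n2, n3, ?_, c1⟩
  by_contra h4
  -- four distinct roots of a cubic
  have n5 : φ (φ (φ b)) ≠ φ b := fun h => n2 (hinj h)
  have n6 : φ (φ (φ b)) ≠ φ (φ b) := fun h => n3 (hinj h)
  have hbb : b - φ b ≠ 0 := sub_ne_zero.mpr (Ne.symm n1)
  have e1 : A3 * (b ^ 2 + b * φ b + φ b ^ 2) + A2 * (b + φ b) + A1 = 0 := by
    apply mul_left_cancel₀ hbb
    linear_combination hb - c1
  have hall : ∀ r, A3 * r ^ 3 + A2 * r ^ 2 + A1 * r + A0 = 0 → r ≠ b → r ≠ φ b →
      A3 * r = -A2 - A3 * b - A3 * φ b := by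
    intro r hr h1 h2
    have e2 : (r - b) * (r - φ b) * (A3 * r + A2 + A3 * b + A3 * φ b) = 0 := by
      linear_combination hr - (r - b) * e1 - hb
    have h3 := (mul_eq_zero.mp e2).resolve_left
      (mul_ne_zero (sub_ne_zero.mpr h1) (sub_ne_zero.mpr h2))
    linear_combination h3
  have g1 := hall _ c2 n2 n3
  have g2 := hall _ c3 h4 n5
  apply n6
  apply mul_left_cancel₀ h30
  rw [g1, g2]

/-- descent of polynomials -/
lemma descent [Fintype K] (P : (Om K)[X])
    (hP : P.map (FiniteField.frobeniusAlgHom K (Om K)).toRingHom = P) :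
    ∃ P0 : K[X], P0.map (algebraMap K (Om K)) = P := by
  have h : P ∈ Polynomial.lifts (algebraMap K (Om K)) := by
    rw [Polynomial.lifts_iff_coeff_lifts]
    intro n
    have h1 := congrArg (fun Q => coeff Q n) hP
    simp only [coeff_map] at h1
    obtain ⟨a, ha⟩ := mem_of_frob (K := K) (y := P.coeff n) h1
    exact ⟨a, ha⟩
  rw [Polynomial.mem_lifts] at h
  exact h

end Fin

end Pool.Agent.R867.Cub
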