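import Pool.Agent.R867.Cub.Lin

set_option autoImplicit false

namespace Pool.Agent.R867.Cub

open Polynomial

section Good

variable {K : Type*} [Field K] (c : Fin 4 → Fin 4 → Fin 4 → K)

/-- the algebraic closure -/
abbrev Om (K : Type*) [Field K] := AlgebraicClosure K

/-- there is a nonconstant curve, parametrised by polynomials over `K`, through the point `x` -/
def Good (x : Fin 4 → K) : Prop :=
  ∃ f : Fin 4 → K[X], F c f = 0 ∧
    (∃ a κ : Om K, κ ≠ 0 ∧ mp (aeval a) f = κ • up (Om K) x) ∧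
    (∃ b : Om K, ∀ κ : Om K, mp (aeval b) f ≠ κ • up (Om K) x)

/-- the tangent plane section at `x` consists of conjugate lines through `x` -/
def Bad (x : Fin 4 → K) : Prop :=
  (∀ w, D c x w = 0 → D c w x = 0) ∧ (∀ w, D c x w = 0 → F c w = 0 → ∃ t : K, w = t • x)

/-- the cubic surface is smooth -/
def Smooth : Prop :=
  ∀ v : Fin 4 → Om K, v ≠ 0 → F c v = 0 → ∃ w, D c v w ≠ 0

variable {c}

/-- the linear form `D x` -/
noncomputable def Dl (c : Fin 4 → Fin 4 → Fin 4 → K) (x : Fin 4 → K) : (Fin 4 → K) →ₗ[K] K where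
  toFun := D c x
  map_add' := D_add2 c x
  map_smul' a v := by rw [D_smul2]; rfl

@[simp] lemma Dl_apply (x v : Fin 4 → K) : Dl c x v = D c x v := rfl

lemma exists_frame {x y : Fin 4 → K} (hx : x ≠ 0) (hF : F c x = 0) (hy : D c x y ≠ 0) :
    ∃ v1 v2 : Fin 4 → K, D c x v1 = 0 ∧ D c x v2 = 0 ∧ LinearIndependent K ![x, v1, v2] := by
  have hxk : x ∈ LinearMap.ker (Dl c x) := by
    rw [LinearMap.mem_ker, Dl_apply, D_self, hF, mul_zero]
  have hr : Module.finrank K (LinearMap.range (Dl c x)) = 1 := by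
    have h1 : LinearMap.range (Dl c x) = ⊤ := by
      rw [LinearMap.range_eq_top]
      intro a
      refine ⟨(a / D c x y) • y, ?_⟩
      rw [Dl_apply, D_smul2]
      field_simp
    rw [h1, finrank_top, Module.finrank_self]
  have hk : Module.finrank K (LinearMap.ker (Dl c x)) = 3 := by
    have := LinearMap.finrank_range_add_finrank_ker (Dl c x)
    rw [hr, Module.finrank_fin_fun] at this
    omega
  have h1 : LinearIndependent K ![(⟨x, hxk⟩ : LinearMap.ker (Dl c x))] := by
    apply LinearIndependent.of_subsingleton (i := 0)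
    simpa [Subtype.ext_iff] using hx
  obtain ⟨u1, h2⟩ := exists_linearIndependent_snoc_of_lt_finrank h1 (by rw [hk]; norm_num)
  obtain ⟨u2, h3⟩ := exists_linearIndependent_snoc_of_lt_finrank h2 (by rw [hk]; norm_num)
  refine ⟨u1, u2, u1.2, u2.2, ?_⟩
  have h4 := h3.map' (LinearMap.ker (Dl c x)).subtype (Submodule.ker_subtype _)
  have h5 : (![x, (u1 : Fin 4 → K), u2] : Fin 3 → (Fin 4 → K)) =
      (LinearMap.ker (Dl c x)).subtype ∘ Fin.snoc (Fin.snoc ![⟨x, hxk⟩] u1) u2 := by
    funext i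
    fin_cases i <;> rfl
  rw [h5]
  exact h4

end Good

end Pool.Agent.R867.Cub
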