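import Pool.Agent.R867.Cub.Basic

set_option autoImplicit false

namespace Pool.Agent.R867.Cub

open Polynomial

section Lin

variable {K : Type*} [Field K]

/-- the pairing -/
def dt {R : Type*} [CommRing R] (u v : Fin 4 → R) : R := ∑ i, u i * v i

lemma dt_add {R : Type*} [CommRing R] (u v w : Fin 4 → R) : dt u (v + w) = dt u v + dt u w := by
  simp [dt, mul_add, Finset.sum_add_distrib]

lemma dt_smul {R : Type*} [CommRing R] (a : R) (u v : Fin 4 → R) : dt u (a • v) = a * dt u v := by
  simp only [dt, Pi.smul_apply, smul_eq_mul, Finset.mul_sum]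
  exact Finset.sum_congr rfl fun i _ => by ring

lemma dt_up {R : Type*} [CommRing R] [Algebra K R] (u v : Fin 4 → K) :
    dt (up R u) (up R v) = algebraMap K R (dt u v) := by
  simp [dt]

/-- a linear form with prescribed values on linearly independent vectors -/
lemma exists_dual {n : ℕ} (v : Fin n → (Fin 4 → K)) (h : LinearIndependent K v) (a : Fin n → K) :
    ∃ ξ : Fin 4 → K, ∀ i, dt ξ (v i) = a i := by
  obtain ⟨g, hg⟩ := LinearMap.exists_extend ((Module.Basis.span h).constr K a)
  refine ⟨fun i => g (Pi.single i 1), fun i => ?_⟩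
  have h1 : g (v i) = a i := by
    have h2 := LinearMap.congr_fun hg ((Module.Basis.span h) i)
    rw [Module.Basis.constr_basis] at h2
    rw [← h2, LinearMap.comp_apply, Submodule.subtype_apply, Module.Basis.span_apply]
  rw [← h1, LinearMap.pi_apply_eq_sum_univ g (v i), dt]
  refine Finset.sum_congr rfl fun j _ => ?_
  rw [smul_eq_mul, mul_comm]
  congr 2
  funext k
  simp [Pi.single_apply, eq_comm]

/-- coordinates over an extension -/
lemma span_up {R : Type*} [CommRing R] [Algebra K R] (b : Fin 4 → (Fin 4 → K))
    (h : LinearIndependent K b) (z : Fin 4 → R) :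
    ∃ t : Fin 4 → R, z = ∑ j, t j • up R (b j) := by
  let bb := basisOfLinearIndependentOfCardEqFinrank h (by simp)
  have hb : ∀ j, bb j = b j := fun j => by
    simp [bb]
  have h1 : ∀ i, (Pi.single i 1 : Fin 4 → K) = ∑ j, bb.repr (Pi.single i 1) j • b j := by
    intro i
    have := bb.sum_repr (Pi.single i 1)
    simp only [hb] at this
    exact this.symm
  refine ⟨fun j => ∑ i, z i * algebraMap K R (bb.repr (Pi.single i 1) j), ?_⟩
  funext k
  simp only [Finset.sum_apply, Pi.smul_apply, smul_eq_mul, up_apply, Finset.sum_mul]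
  rw [Finset.sum_comm]
  have h2 : ∀ i, ∑ j, z i * algebraMap K R (bb.repr (Pi.single i 1) j) * algebraMap K R (b j k)
      = z i * algebraMap K R ((Pi.single i 1 : Fin 4 → K) k) := by
    intro i
    conv_rhs => rw [h1 i]
    simp only [Finset.sum_apply, Pi.smul_apply, smul_eq_mul, map_sum, map_mul, Finset.mul_sum]
    exact Finset.sum_congr rfl fun j _ => by ring
  simp only [h2]
  simp [Pi.single_apply]

end Lin

end Pool.Agent.R867.Cub
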