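import Pool.Agent.R867.Cub.Good

set_option autoImplicit false

namespace Pool.Agent.R867.Cub

open Polynomial

section M1

variable {K : Type*} [Field K] {c : Fin 4 → Fin 4 → Fin 4 → K}

lemma up_injective_dt {x : Fin 4 → K} {z : Fin 4 → Om K} (ξ : Fin 4 → K) (h1 : dt ξ x = 0)
    (h2 : dt (up (Om K) ξ) z ≠ 0) (κ : Om K) : z ≠ κ • up (Om K) x := by
  rintro rfl
  rw [dt_smul, dt_up, h1, map_zero, mul_zero] at h2
  exact h2 rfl

lemma good_line {x v : Fin 4 → K} (hli : LinearIndependent K ![x, v]) (hx : F c x = 0)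
    (h1 : D c x v = 0) (h2 : D c v x = 0) (h3 : F c v = 0) : Good c x := by
  obtain ⟨ξ, hξ⟩ := exists_dual ![x, v] hli ![0, 1]
  have hξ0 : dt ξ x = 0 := by simpa using hξ 0
  have hξ1 : dt ξ v = 1 := by simpa using hξ 1
  have he : ∀ b : Om K, mp (aeval b) (up K[X] x + (X : K[X]) • up K[X] v) =
      up (Om K) x + b • up (Om K) v := by
    intro b
    rw [mp_add, mp_smul, mp_up, mp_up, aeval_X]
  refine ⟨up K[X] x + (X : K[X]) • up K[X] v, ?_, ⟨0, 1, one_ne_zero, ?_⟩, 1, fun κ => ?_⟩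
  · rw [F_add, F_smul, D_smul2, D_smul1, up_F, up_F, up_D, up_D, hx, h1, h2, h3]
    simp
  · rw [he, zero_smul, add_zero, one_smul]
  · apply up_injective_dt ξ hξ0
    rw [he, dt_add, dt_smul, dt_up, dt_up, hξ0, hξ1]
    simp

/-- the value at `b` of the fundamental curve -/
lemma third_eval {x v1 v2 : Fin 4 → K} (b : Om K) :
    mp (aeval b) (F c (up K[X] v1 + (X : K[X]) • up K[X] v2) • up K[X] x +
      (-(D c (up K[X] v1 + (X : K[X]) • up K[X] v2) (up K[X] x))) •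
        (up K[X] v1 + (X : K[X]) • up K[X] v2)) =
    F c (up (Om K) v1 + b • up (Om K) v2) • up (Om K) x +
      (-(D c (up (Om K) v1 + b • up (Om K) v2) (up (Om K) x))) •
        (up (Om K) v1 + b • up (Om K) v2) := by
  have hv : mp (aeval b) (up K[X] v1 + (X : K[X]) • up K[X] v2) =
      up (Om K) v1 + b • up (Om K) v2 := by
    rw [mp_add, mp_smul, mp_up, mp_up, aeval_X]
  rw [mp_add, mp_smul, mp_smul, map_neg, ← mp_F, ← mp_D, hv, mp_up]

lemma good_A {x v1 v2 : Fin 4 → K} (hli : LinearIndependent K ![x, v1, v2]) (hx : F c x = 0)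
    (h1 : D c x v1 = 0) (h2 : D c x v2 = 0)
    (ha : ∃ a : Om K, D c (up (Om K) v1 + a • up (Om K) v2) (up (Om K) x) = 0 ∧
      F c (up (Om K) v1 + a • up (Om K) v2) ≠ 0)
    (hb : ∃ b : Om K, D c (up (Om K) v1 + b • up (Om K) v2) (up (Om K) x) ≠ 0) : Good c x := by
  obtain ⟨ξ, hξ⟩ := exists_dual ![x, v1, v2] hli ![0, 1, 0]
  have hξ0 : dt ξ x = 0 := by simpa using hξ 0
  have hξ1 : dt ξ v1 = 1 := by simpa using hξ 1
  have hξ2 : dt ξ v2 = 0 := by simpa using hξ 2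
  obtain ⟨a, ha1, ha2⟩ := ha
  obtain ⟨b, hb⟩ := hb
  refine ⟨F c (up K[X] v1 + (X : K[X]) • up K[X] v2) • up K[X] x +
      (-(D c (up K[X] v1 + (X : K[X]) • up K[X] v2) (up K[X] x))) •
        (up K[X] v1 + (X : K[X]) • up K[X] v2), ?_, ⟨a, _, ha2, ?_⟩, b, fun κ => ?_⟩
  · apply F_third
    · rw [up_F, hx, map_zero]
    · rw [D_add2, D_smul2, up_D, up_D, h1, h2]
      simp
  · rw [third_eval, ha1, neg_zero, zero_smul, add_zero]
  · apply up_injective_dt ξ hξ0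
    rw [third_eval, dt_add, dt_smul, dt_smul, dt_add, dt_smul, dt_up, dt_up, dt_up, hξ0, hξ1, hξ2]
    simpa using hb

lemma exists_aeval_ne {P : K[X]} (hP : P ≠ 0) : ∃ b : Om K, aeval b P ≠ 0 := by
  by_contra hcon
  push Not at hcon
  apply hP
  have h1 : P.map (algebraMap K (Om K)) = 0 := by
    apply Polynomial.funext
    intro r
    rw [eval_map_algebraMap, hcon r, eval_zero]
  exact (Polynomial.map_eq_zero _).mp h1

lemma exists_aeval_ne_Om {P : (Om K)[X]} (hP : P ≠ 0) : ∃ b : Om K, P.eval b ≠ 0 := by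
  by_contra hcon
  push Not at hcon
  apply hP
  apply Polynomial.funext
  intro r
  rw [hcon r, eval_zero]

/-- the case of two conjugate lines through `x` -/
lemma good_B {x v1 v2 y : Fin 4 → K} (hli : LinearIndependent K ![x, v1, v2, y])
    (hsm : Smooth c) (hx : F c x = 0) (h1 : D c x v1 = 0) (h2 : D c x v2 = 0)
    (hy : D c x y ≠ 0) (k1 : F c v1 = 0) (k2 : D c v1 v2 = 0) (k3 : D c v2 v1 = 0)
    (k4 : F c v2 = 0) (hq : D c v2 x ≠ 0) (u0 : Om K)
    (hu0 : D c (up (Om K) v1 + u0 • up (Om K) v2) (up (Om K) x) = 0)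
    (hu1 : T c (up (Om K) v1 + u0 • up (Om K) v2) (up (Om K) v2) (up (Om K) x) ≠ 0) :
    Good c x := by
  -- facts in any algebra
  have hv2 : v2 ≠ 0 := by
    have := hli.ne_zero 2
    simpa using this
  set X' : Fin 4 → K[X] := up K[X] x with hX'
  set V1 : Fin 4 → K[X] := up K[X] v1 with hV1
  set V2 : Fin 4 → K[X] := up K[X] v2 with hV2
  set Y : Fin 4 → K[X] := up K[X] y with hY
  have eX : F c X' = 0 := by rw [hX', up_F, hx, map_zero]
  have e1 : D c X' V1 = 0 := by rw [hX', hV1, up_D, h1, map_zero]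
  have e2 : D c X' V2 = 0 := by rw [hX', hV2, up_D, h2, map_zero]
  have f1 : F c V1 = 0 := by rw [hV1, up_F, k1, map_zero]
  have f2 : D c V1 V2 = 0 := by rw [hV1, hV2, up_D, k2, map_zero]
  have f3 : D c V2 V1 = 0 := by rw [hV1, hV2, up_D, k3, map_zero]
  have f4 : F c V2 = 0 := by rw [hV2, up_F, k4, map_zero]
  -- the point of the line
  obtain ⟨V, hV⟩ : ∃ V, V = V1 + (X : K[X]) • V2 := ⟨_, rfl⟩
  obtain ⟨π, hπ⟩ : ∃ π, π = D c V X' := ⟨_, rfl⟩
  obtain ⟨π1, hπ1⟩ : ∃ π1, π1 = T c V V2 X' := ⟨_, rfl⟩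
  obtain ⟨q, hqq⟩ : ∃ q, q = D c V2 X' := ⟨_, rfl⟩
  have eV : F c V = 0 := by
    rw [hV, F_add, F_smul, D_smul1, D_smul2, f1, f2, f3, f4]; ring
  have eVV2 : D c V V2 = 0 := by
    rw [hV, D_add1, D_smul1, T_smul2, T_baa, D_self, f2, f3, f4]; ring
  have eV2V : D c V2 V = 0 := by
    rw [hV, D_add2, D_smul2, D_self, f3, f4]; ring
  have eXV : D c X' V = 0 := by
    rw [hV, D_add2, D_smul2, e1, e2]; ring
  obtain ⟨e, he⟩ : ∃ e, e = π1 • V + (-π) • V2 := ⟨_, rfl⟩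
  have ee : F c e = 0 := by
    rw [he, F_comb, eV, eVV2, eV2V, f4]; ring
  have eeX : D c e X' = q * π ^ 2 := by
    rw [he, D_add1, D_smul1, D_smul1, T_smul1, T_smul2, ← hπ, ← hπ1, ← hqq]; ring
  have eXe : D c X' e = 0 := by
    rw [he, D_add2, D_smul2, D_smul2, eXV, e2]; ring
  have eeV2 : D c e V2 = 0 := by
    rw [he, D_add1, D_smul1, D_smul1, T_smul1, T_smul2, T_baa, eVV2, D_self, eV2V, f4]
    ring
  have eV2e : D c V2 e = 0 := by
    rw [he, D_add2, D_smul2, D_smul2, D_self, eV2V, f4]; ring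
  obtain ⟨m, hm⟩ : ∃ m, m = D c e Y := ⟨_, rfl⟩
  obtain ⟨z, hz⟩ : ∃ z, z = m • X' + (-(q * π ^ 2)) • Y := ⟨_, rfl⟩
  have eez : D c e z = 0 := by
    rw [hz, D_add2, D_smul2, D_smul2, eeX, ← hm]; ring
  -- divisibilities
  have gz : ∀ w', D c X' w' = 0 → D c z w' = π ^ 2 * (-(q * (m * T c X' Y w' -
      q * π ^ 2 * D c Y w'))) := by
    intro w' hw'
    rw [hz, D_add1, D_smul1, D_smul1, T_smul1, T_smul2, hw']; ring
  have Fz : F c z = π ^ 2 * (-(q * (m ^ 2 * D c X' Y - m * q * π ^ 2 * D c Y X' +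
      q ^ 2 * π ^ 4 * F c Y))) := by
    rw [hz, F_comb, eX]; ring
  obtain ⟨ζ, hζ⟩ : ∃ ζ, ζ = π • V2 + z := ⟨_, rfl⟩
  have eeζ : D c e ζ = 0 := by
    rw [hζ, D_add2, D_smul2, eeV2, eez]; ring
  obtain ⟨G, hG⟩ : ∃ G, F c ζ = π ^ 2 * G := by
    refine ⟨D c V2 z + π * (-(q * (m * T c X' Y V2 - q * π ^ 2 * D c Y V2))) +
      (-(q * (m ^ 2 * D c X' Y - m * q * π ^ 2 * D c Y X' + q ^ 2 * π ^ 4 * F c Y))), ?_⟩
    rw [hζ, F_add, F_smul, D_smul1, D_smul2, f4, gz V2 e2, Fz]; ring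
  obtain ⟨H, hH, hHe⟩ : ∃ H, H = T c V2 z e + π * (-(q * (m * T c X' Y e -
      q * π ^ 2 * D c Y e))) ∧ D c ζ e = π * H := by
    refine ⟨_, rfl, ?_⟩
    rw [hζ, D_add1, D_smul1, T_smul1, eV2e, gz e eXe]; ring
  obtain ⟨f, hf⟩ : ∃ f, f = (π * G) • e + (-H) • ζ := ⟨_, rfl⟩
  have hπf : π • f = F c ζ • e + (-(D c ζ e)) • ζ := by
    rw [hf, hG, hHe, smul_add, smul_smul, smul_smul]
    congr 2 <;> ring
  have hπ0 : π ≠ 0 := by
    intro h0
    have : π.coeff 2 = D c v2 x := by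
      rw [hπ, hV, D_add1, D_smul1, T_smul2, hV1, hV2, hX', up_D, up_D, up_T]
      simp [coeff_X, coeff_C, coeff_X_pow, Polynomial.algebraMap_eq]
    rw [h0, coeff_zero] at this
    exact hq this.symm
  have Ff : F c f = 0 := by
    have h3 := F_third c e ζ ee eeζ
    rw [← hπf, F_smul] at h3
    exact (mul_eq_zero.mp h3).resolve_left (pow_ne_zero _ hπ0)
  -- values at u0
  have sX : ∀ b : Om K, mp (aeval b) X' = up (Om K) x := fun b => by rw [hX', mp_up]
  have sV1 : ∀ b : Om K, mp (aeval b) V1 = up (Om K) v1 := fun b => by rw [hV1, mp_up]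
  have sV2 : ∀ b : Om K, mp (aeval b) V2 = up (Om K) v2 := fun b => by rw [hV2, mp_up]
  have sY : ∀ b : Om K, mp (aeval b) Y = up (Om K) y := fun b => by rw [hY, mp_up]
  have sV : ∀ b : Om K, mp (aeval b) V = up (Om K) v1 + b • up (Om K) v2 := fun b => by
    rw [hV, mp_add, mp_smul, sV1, sV2, aeval_X]
  have t1 : aeval u0 π = 0 := by
    rw [hπ, ← mp_D, sV, sX, hu0]
  obtain ⟨p1, hp1⟩ : ∃ p1, p1 = aeval u0 π1 := ⟨_, rfl⟩
  have hp1' : p1 = T c (up (Om K) v1 + u0 • up (Om K) v2) (up (Om K) v2) (up (Om K) x) := by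
    rw [hp1, hπ1, ← mp_T, sV, sX, sV2]
  have hp10 : p1 ≠ 0 := by rw [hp1']; exact hu1
  obtain ⟨W, hW⟩ : ∃ W, W = up (Om K) v1 + u0 • up (Om K) v2 := ⟨_, rfl⟩
  have se : mp (aeval u0) e = p1 • W := by
    rw [he, mp_add, mp_smul, mp_smul, map_neg, t1, neg_zero, zero_smul, add_zero, sV, ← hp1, hW]
  -- smoothness
  have hWy : D c W (up (Om K) y) ≠ 0 := by
    intro h0
    have hWx : D c W (up (Om K) x) = 0 := by rw [hW, hu0]
    have hWF : F c W = 0 := by
      have := congrArg (aeval u0) eV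
      rw [← mp_F, sV, ← hW, map_zero] at this
      exact this
    have hWv2 : D c W (up (Om K) v2) = 0 := by
      have := congrArg (aeval u0) eVV2
      rw [← mp_D, sV, sV2, ← hW, map_zero] at this
      exact this
    have hWv1 : D c W (up (Om K) v1) = 0 := by
      have h5 : up (Om K) v1 = W + (-u0) • up (Om K) v2 := by
        rw [hW]; funext i; simp
      rw [h5, D_add2, D_smul2, D_self, hWF, hWv2]; ring
    have hW0 : W ≠ 0 := by
      intro h6
      apply hp10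
      rw [hp1', ← hW, h6]
      have := T_smul1 c (0 : Om K) (0 : Fin 4 → Om K) (up (Om K) v2) (up (Om K) x)
      simpa using this
    obtain ⟨w, hw⟩ := hsm W hW0 hWF
    obtain ⟨t, ht⟩ := span_up _ hli w
    apply hw
    rw [ht, Fin.sum_univ_four]
    simp only [D_add2, D_smul2, Matrix.cons_val_zero, Matrix.cons_val_one, Matrix.cons_val]
    rw [hWx, hWv1, hWv2, h0]; ring
  have hm0 : aeval u0 m = p1 ^ 2 * D c W (up (Om K) y) := by
    rw [hm, ← mp_D, se, sY, D_smul1]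
  have sz : mp (aeval u0) z = aeval u0 m • up (Om K) x := by
    rw [hz, mp_add, mp_smul, mp_smul, map_neg, map_mul, map_pow, t1, sX]
    simp
  have sζ : mp (aeval u0) ζ = aeval u0 m • up (Om K) x := by
    rw [hζ, mp_add, mp_smul, t1, zero_smul, zero_add, sz]
  have hH0 : aeval u0 H = p1 ^ 2 * aeval u0 m := by
    rw [hH, map_add, map_mul, t1, zero_mul, add_zero, ← mp_T, sV2, sz, se, T_smul2, T_smul3,
      T_comm13, T_comm23, hW, ← T_comm23, T_comm23, ← hp1']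
    ring
  have hmne : aeval u0 m ≠ 0 := by
    rw [hm0]; exact mul_ne_zero (pow_ne_zero _ hp10) hWy
  have sf : mp (aeval u0) f = (-(p1 ^ 2 * aeval u0 m * aeval u0 m)) • up (Om K) x := by
    rw [hf, mp_add, mp_smul, mp_smul, map_mul, t1, zero_mul, zero_smul, zero_add, map_neg, sζ, hH0,
      smul_smul]
    congr 1; ring
  -- the curve is not constant
  have eDf : D c X' f = H * q * π ^ 2 * D c X' Y := by
    rw [hf, D_add2, D_smul2, D_smul2, eXe, hζ, D_add2, D_smul2, e2, hz, D_add2, D_smul2, D_smul2,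
      D_self, eX]
    ring
  have hne : H * q * π ^ 2 * D c X' Y ≠ 0 := by
    have hHne : H ≠ 0 := by
      rintro h0
      rw [h0, map_zero] at hH0
      exact mul_ne_zero (pow_ne_zero _ hp10) hmne hH0.symm
    have hqne : q ≠ 0 := by
      rw [hqq, hV2, hX', up_D]
      simpa using hq
    have hXY : D c X' Y ≠ 0 := by
      rw [hX', hY, up_D]
      simpa using hy
    exact mul_ne_zero (mul_ne_zero (mul_ne_zero hHne hqne) (pow_ne_zero _ hπ0)) hXY
  obtain ⟨b, hb⟩ := exists_aeval_ne hne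
  refine ⟨f, Ff, ⟨u0, _, ?_, sf⟩, b, fun κ hκ => hb ?_⟩
  · exact neg_ne_zero.mpr (mul_ne_zero (mul_ne_zero (pow_ne_zero _ hp10) hmne) hmne)
  · rw [← eDf, ← mp_D, sX, hκ, D_smul2, D_self, up_F, hx]
    simp

end M1

end Pool.Agent.R867.Cub
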