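import Pool.Agent.R867.Cub.M1

set_option autoImplicit false

namespace Pool.Agent.R867.Cub

open Polynomial

section M1b

variable {K : Type*} [Field K] {c : Fin 4 → Fin 4 → Fin 4 → K}

/-- `D` on the pencil as a polynomial -/
lemma coeff_pencilD (v1 v2 x : Fin 4 → K) :
    D c (up K[X] v1 + (X : K[X]) • up K[X] v2) (up K[X] x) =
      C (D c v2 x) * X ^ 2 + C (T c v1 v2 x) * X + C (D c v1 x) := by
  rw [D_add1, D_smul1, T_smul2, up_D, up_D, up_T]
  simp only [Polynomial.algebraMap_eq]
  ring

lemma coeff_pencilF (v1 v2 : Fin 4 → K) :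
    F c (up K[X] v1 + (X : K[X]) • up K[X] v2) =
      C (F c v2) * X ^ 3 + C (D c v2 v1) * X ^ 2 + C (D c v1 v2) * X + C (F c v1) := by
  rw [F_add, F_smul, D_smul1, D_smul2, up_D, up_D, up_F, up_F]
  simp only [Polynomial.algebraMap_eq]
  ring

lemma aeval_pencilD (v1 v2 x : Fin 4 → K) (b : Om K) :
    aeval b (D c (up K[X] v1 + (X : K[X]) • up K[X] v2) (up K[X] x)) =
      D c (up (Om K) v1 + b • up (Om K) v2) (up (Om K) x) := by
  rw [← mp_D, mp_add, mp_smul, mp_up, mp_up, mp_up, aeval_X]

lemma aeval_pencilF (v1 v2 : Fin 4 → K) (b : Om K) :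
    aeval b (F c (up K[X] v1 + (X : K[X]) • up K[X] v2)) =
      F c (up (Om K) v1 + b • up (Om K) v2) := by
  rw [← mp_F, mp_add, mp_smul, mp_up, mp_up, aeval_X]

lemma eval_pencilD (v1 v2 x : Fin 4 → K) (b : K) :
    eval b (D c (up K[X] v1 + (X : K[X]) • up K[X] v2) (up K[X] x)) =
      D c (v1 + b • v2) x := by
  rw [coeff_pencilD, D_add1, D_smul1, T_smul2]
  simp; ring

/-- `v` is not a multiple of `x` -/
lemma li_pair {x v : Fin 4 → K} (hx : x ≠ 0) (hv : ∀ t : K, v ≠ t • x) :
    LinearIndependent K ![x, v] := by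
  rw [LinearIndependent.pair_iff' hx]
  intro a h
  exact hv a h.symm

theorem M1 [PerfectField K] {x y : Fin 4 → K} (hsm : Smooth c) (hx0 : x ≠ 0) (hx : F c x = 0)
    (hy : D c x y ≠ 0) : Good c x ∨ Bad c x := by
  by_contra hcon
  rw [not_or] at hcon
  obtain ⟨hng, hnb⟩ := hcon
  have hxx : D c x x = 0 := by rw [D_self, hx, mul_zero]
  -- no line through `x`
  have hnl : ∀ w, D c x w = 0 → D c w x = 0 → F c w = 0 → ∃ t : K, w = t • x := by
    intro w h1 h2 h3
    by_contra h4
    push Not at h4
    exact hng (good_line (li_pair hx0 h4) hx h1 h2 h3)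
  -- the quadratic form is not zero
  have hq : ∃ w, D c x w = 0 ∧ D c w x ≠ 0 := by
    by_contra h
    push Not at h
    exact hnb ⟨h, fun w hw1 hw2 => hnl w hw1 (h w hw1) hw2⟩
  obtain ⟨w0, hw1, hw2⟩ := hq
  by_cases hroot : ∃ v, D c x v = 0 ∧ D c v x = 0 ∧ ∀ t : K, v ≠ t • x
  · -- a rational root
    obtain ⟨v, hv1, hv2, hv3⟩ := hroot
    have hFv : F c v ≠ 0 := fun h => by
      obtain ⟨t, ht⟩ := hnl v hv1 hv2 h
      exact hv3 t ht
    have hli : LinearIndependent K ![x, v, w0] := by
      have h1 := li_pair hx0 hv3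
      rw [LinearIndependent.pair_iff] at h1
      rw [Fintype.linearIndependent_iff]
      intro g hg
      rw [Fin.sum_univ_three] at hg
      simp only [Matrix.cons_val_zero, Matrix.cons_val_one, Matrix.cons_val] at hg
      have h2 : g 2 = 0 := by
        by_contra h0
        have h3 : w0 = (-(g 0 / g 2)) • x + (-(g 1 / g 2)) • v := by
          have h4 : g 2 • w0 = -(g 0 • x + g 1 • v) := by
            rw [eq_neg_iff_add_eq_zero, add_comm]; exact hg
          calc w0 = (g 2)⁻¹ • (g 2 • w0) := by rw [smul_smul, inv_mul_cancel₀ h0, one_smul]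
            _ = _ := by
              rw [h4]; funext i
              simp only [Pi.smul_apply, Pi.neg_apply, Pi.add_apply, smul_eq_mul]
              field_simp; ring
        apply hw2
        rw [h3, D_add1, D_smul1, D_smul1, T_smul1, T_smul2, T_aba, hxx, hv1, hv2]
        ring
      rw [h2, zero_smul, add_zero] at hg
      obtain ⟨h3, h4⟩ := h1 _ _ hg
      intro i
      fin_cases i
      · exact h3
      · exact h4
      · exact h2
    apply hng
    refine good_A hli hx hv1 hw1 ⟨0, ?_, ?_⟩ ?_
    · rw [zero_smul, add_zero, up_D, hv2, map_zero]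
    · rw [zero_smul, add_zero, up_F]
      simpa using hFv
    · have hne : D c (up K[X] v + (X : K[X]) • up K[X] w0) (up K[X] x) ≠ 0 := by
        intro h0
        have h1 := congrArg (fun P => coeff P 2) h0
        simp only [coeff_pencilD] at h1
        simp [coeff_X, coeff_C] at h1
        exact hw2 h1
      obtain ⟨b, hb⟩ := exists_aeval_ne hne
      exact ⟨b, by rwa [aeval_pencilD] at hb⟩
  · push Not at hroot
    obtain ⟨v1, v2, h1, h2, hli⟩ := exists_frame hx0 hx hy
    have hnr : ∀ a b : K, (a ≠ 0 ∨ b ≠ 0) → ∀ t : K, a • v1 + b • v2 ≠ t • x := by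
      intro a b hab t h
      rw [Fintype.linearIndependent_iff] at hli
      have h3 := hli ![-t, a, b] (by
        rw [Fin.sum_univ_three]
        simp only [Matrix.cons_val_zero, Matrix.cons_val_one, Matrix.cons_val]
        rw [add_assoc, h]; simp)
      rcases hab with h4 | h4
      · exact h4 (by simpa using h3 1)
      · exact h4 (by simpa using h3 2)
    have hq22 : D c v2 x ≠ 0 := by
      intro h
      obtain ⟨t, ht⟩ := hroot v2 h2 h
      exact hnr 0 1 (Or.inr one_ne_zero) t (by rw [zero_smul, zero_add, one_smul]; exact ht)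
    obtain ⟨π, hπ⟩ : ∃ π, π = D c (up K[X] v1 + (X : K[X]) • up K[X] v2) (up K[X] x) := ⟨_, rfl⟩
    have hπe := coeff_pencilD (c := c) v1 v2 x
    rw [← hπ] at hπe
    have hdeg : π.natDegree = 2 := by
      rw [hπe]
      exact natDegree_quadratic hq22
    have hπ0 : π ≠ 0 := by
      intro h; rw [h] at hdeg; simp at hdeg
    have hnoroot : ∀ a : K, ¬ IsRoot π a := by
      intro a ha
      rw [IsRoot, hπ, eval_pencilD] at ha
      obtain ⟨t, ht⟩ := hroot (v1 + a • v2) (by rw [D_add2, D_smul2, h1, h2]; ring) ha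
      exact hnr 1 a (Or.inl one_ne_zero) t (by rw [one_smul]; exact ht)
    have hirr : Irreducible π := by
      apply Polynomial.irreducible_of_degree_le_three_of_not_isRoot
      · rw [Finset.mem_Icc, hdeg]; norm_num
      · exact hnoroot
    obtain ⟨a, ha⟩ := IsAlgClosed.exists_aeval_eq_zero (Om K) π (by
      rw [degree_eq_natDegree hπ0, hdeg]; norm_num)
    have ha' : D c (up (Om K) v1 + a • up (Om K) v2) (up (Om K) x) = 0 := by
      rw [← aeval_pencilD, ← hπ]; exact ha
    have hxv : D c (v1) x ≠ 0 := by
      intro h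
      obtain ⟨t, ht⟩ := hroot v1 h1 h
      exact hnr 1 0 (Or.inl one_ne_zero) t (by rw [zero_smul, add_zero, one_smul]; exact ht)
    by_cases hFa : F c (up (Om K) v1 + a • up (Om K) v2) = 0
    · -- two conjugate lines
      have hmin : minpoly K a = π * C (π.leadingCoeff⁻¹) := by
        exact (minpoly.eq_of_irreducible hirr ha).symm
      have hdvd : π ∣ F c (up K[X] v1 + (X : K[X]) • up K[X] v2) := by
        have h3 : minpoly K a ∣ F c (up K[X] v1 + (X : K[X]) • up K[X] v2) :=
          minpoly.dvd K a (by rw [aeval_pencilF]; exact hFa)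
        rw [hmin] at h3
        exact dvd_trans (Dvd.intro _ rfl) h3
      obtain ⟨L, hL⟩ := hdvd
      have hLdeg : L.natDegree ≤ 1 := by
        by_cases hL0 : L = 0
        · rw [hL0]; simp
        have h3 : (π * L).natDegree ≤ 3 := by
          rw [← hL, coeff_pencilF]
          exact natDegree_cubic_le
        rw [natDegree_mul hπ0 hL0, hdeg] at h3
        omega
      obtain ⟨l1, l0, hLe⟩ : ∃ l1 l0, L = C l1 * X + C l0 :=
        ⟨_, _, eq_X_add_C_of_natDegree_le_one hLdeg⟩
      obtain ⟨v1', hv1'⟩ : ∃ v, v = v1 + (-l0) • x := ⟨_, rfl⟩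
      obtain ⟨v2', hv2'⟩ : ∃ v, v = v2 + (-l1) • x := ⟨_, rfl⟩
      have hpen : up K[X] v1' + (X : K[X]) • up K[X] v2' =
          (up K[X] v1 + (X : K[X]) • up K[X] v2) + (-L) • up K[X] x := by
        rw [hv1', hv2', hLe, up_add, up_add, up_smul, up_smul, Polynomial.algebraMap_eq]
        funext i
        simp only [Pi.add_apply, Pi.smul_apply, smul_eq_mul, map_neg]
        ring
      have hXV : D c (up K[X] x) (up K[X] v1 + (X : K[X]) • up K[X] v2) = 0 := by
        rw [D_add2, D_smul2, up_D, up_D, h1, h2]; simp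
      have hXX : F c (up K[X] x) = 0 := by rw [up_F, hx, map_zero]
      have hF0 : F c (up K[X] v1' + (X : K[X]) • up K[X] v2') = 0 := by
        rw [hpen, F_add, F_smul, D_smul1, D_smul2, hXV, hXX, ← hπ, hL]; ring
      have hD0 : D c (up K[X] v1' + (X : K[X]) • up K[X] v2') (up K[X] x) = π := by
        rw [hpen, D_add1, D_smul1, T_smul2, T_baa, D_self, hXX, hXV, ← hπ]; ring
      have hc := coeff_pencilF (c := c) v1' v2'
      rw [hF0] at hc
      have c3 := congrArg (fun P => coeff P 3) hc
      have c2 := congrArg (fun P => coeff P 2) hc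
      have c1 := congrArg (fun P => coeff P 1) hc
      have c0 := congrArg (fun P => coeff P 0) hc
      simp [coeff_X, coeff_C] at c3
      simp [coeff_X, coeff_C] at c2
      simp [coeff_X, coeff_C] at c1
      simp [coeff_X, coeff_C] at c0
      have hcd := coeff_pencilD (c := c) v1' v2' x
      rw [hD0, hπe] at hcd
      have d2 := congrArg (fun P => coeff P 2) hcd
      simp [coeff_X, coeff_C] at d2
      have k1 : D c x v1' = 0 := by
        rw [hv1', D_add2, D_smul2, h1, hxx]; ring
      have k2 : D c x v2' = 0 := by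
        rw [hv2', D_add2, D_smul2, h2, hxx]; ring
      have hli4 : LinearIndependent K ![x, v1', v2', y] := by
        rw [Fintype.linearIndependent_iff] at hli ⊢
        intro g hg
        rw [Fin.sum_univ_four] at hg
        simp only [Matrix.cons_val_zero, Matrix.cons_val_one, Matrix.cons_val] at hg
        have h3 : g 3 = 0 := by
          have h4 : D c x (g 0 • x + g 1 • v1' + g 2 • v2' + g 3 • y) = g 3 * D c x y := by
            rw [D_add2, D_add2, D_add2, D_smul2, D_smul2, D_smul2, D_smul2, hxx, k1, k2]; ring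
          rw [hg, D_zero2] at h4
          exact (mul_eq_zero.mp h4.symm).resolve_right hy
        rw [h3, zero_smul, add_zero, hv1', hv2'] at hg
        have h5 := hli ![g 0 - g 1 * l0 - g 2 * l1, g 1, g 2] (by
          rw [Fin.sum_univ_three]
          simp only [Matrix.cons_val_zero, Matrix.cons_val_one, Matrix.cons_val]
          rw [← hg]
          funext i
          simp only [Pi.add_apply, Pi.smul_apply, smul_eq_mul]
          ring)
        have h6 : g 1 = 0 := by simpa using h5 1
        have h7 : g 2 = 0 := by simpa using h5 2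
        have h8 : g 0 = 0 := by simpa [h6, h7] using h5 0
        intro i
        fin_cases i
        · exact h8
        · exact h6
        · exact h7
        · exact h3
      apply hng
      refine good_B hli4 hsm hx k1 k2 hy c0.symm c1.symm c2.symm c3.symm ?_ a ?_ ?_
      · rw [← d2]; exact hq22
      · rw [← aeval_pencilD, hD0]; exact ha
      · -- the derivative
        have hsep : π.Separable := PerfectField.separable_of_irreducible hirr
        have hder := hsep.aeval_derivative_ne_zero ha
        have h3 : aeval a (derivative π) = T c (up (Om K) v1' + a • up (Om K) v2')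
            (up (Om K) v2') (up (Om K) x) := by
          rw [← hD0, coeff_pencilD, T_add1, T_smul1, T_self, up_T, up_D]
          simp
          ring
        rw [← h3]
        exact hder
    · apply hng
      refine good_A hli hx h1 h2 ⟨a, ha', hFa⟩ ⟨0, ?_⟩
      rw [zero_smul, add_zero, up_D]
      simpa using hxv

end M1b

end Pool.Agent.R867.Cub
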