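import Pool.Agent.R867.Cub.CaseD

set_option autoImplicit false

namespace Pool.Agent.R867.Cub

open Polynomial

section Main

variable {K : Type*} [Field K] {c : Fin 4 → Fin 4 → Fin 4 → K}

lemma exists_third {s x y : Fin 4 → K} (hli : LinearIndependent K ![s, x]) (hs : D c s s = 0)
    (hx : D c s x = 0) (hy : D c s y ≠ 0) :
    ∃ v : Fin 4 → K, D c s v = 0 ∧ LinearIndependent K ![s, x, v] := by
  have hsk : s ∈ LinearMap.ker (Dl c s) := by rw [LinearMap.mem_ker, Dl_apply, hs]
  have hxk : x ∈ LinearMap.ker (Dl c s) := by rw [LinearMap.mem_ker, Dl_apply, hx]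
  have hr : Module.finrank K (LinearMap.range (Dl c s)) = 1 := by
    have h1 : LinearMap.range (Dl c s) = ⊤ := by
      rw [LinearMap.range_eq_top]
      intro a
      refine ⟨(a / D c s y) • y, ?_⟩
      rw [Dl_apply, D_smul2]
      field_simp
    rw [h1, finrank_top, Module.finrank_self]
  have hk : Module.finrank K (LinearMap.ker (Dl c s)) = 3 := by
    have := LinearMap.finrank_range_add_finrank_ker (Dl c s)
    rw [hr, Module.finrank_fin_fun] at this
    omega
  have h1 : LinearIndependent K ![(⟨s, hsk⟩ : LinearMap.ker (Dl c s)), ⟨x, hxk⟩] := by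
    apply LinearIndependent.of_comp (LinearMap.ker (Dl c s)).subtype
    have h5 : (LinearMap.ker (Dl c s)).subtype ∘
        ![(⟨s, hsk⟩ : LinearMap.ker (Dl c s)), ⟨x, hxk⟩] = ![s, x] := by
      funext i
      fin_cases i <;> rfl
    rw [h5]
    exact hli
  obtain ⟨u1, h2⟩ := exists_linearIndependent_snoc_of_lt_finrank h1 (by rw [hk]; norm_num)
  refine ⟨u1, u1.2, ?_⟩
  have h4 := h2.map' (LinearMap.ker (Dl c s)).subtype (Submodule.ker_subtype _)
  have h5 : (![s, x, (u1 : Fin 4 → K)] : Fin 3 → (Fin 4 → K)) =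
      (LinearMap.ker (Dl c s)).subtype ∘ Fin.snoc ![(⟨s, hsk⟩ : LinearMap.ker (Dl c s)),
        ⟨x, hxk⟩] u1 := by
    funext i
    fin_cases i <;> rfl
  rw [h5]
  exact h4

lemma exists_D_ne (hsm : Smooth c) {x : Fin 4 → K} (hx0 : x ≠ 0) (hx : F c x = 0) :
    ∃ y : Fin 4 → K, D c x y ≠ 0 := by
  have h1 : up (Om K) x ≠ 0 := by
    intro h
    apply hx0
    funext i
    have := congrFun h i
    simpa using this
  obtain ⟨w, hw⟩ := hsm (up (Om K) x) h1 (by rw [up_F, hx, map_zero])
  by_contra hcon
  push Not at hcon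
  apply hw
  obtain ⟨t, ht⟩ := span_up (fun j => (Pi.single j 1 : Fin 4 → K))
    (Pi.linearIndependent_single_one (Fin 4) K) w
  rw [ht, Fin.sum_univ_four]
  simp only [D_add2, D_smul2, up_D, hcon, map_zero, mul_zero, add_zero]

lemma good_R0 {x s : Fin 4 → K} (hsm : Smooth c) (hx0 : x ≠ 0) (hx : F c x = 0) (hb : Bad c x)
    (hs : F c s = 0) (h1 : D c s x = 0) (h2 : D c x s ≠ 0) : Good c x := by
  have hxx : D c x x = 0 := by rw [D_self, hx, mul_zero]
  have hss : D c s s = 0 := by rw [D_self, hs, mul_zero]
  have hs0 : s ≠ 0 := by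
    rintro rfl
    exact h2 (D_zero2 c x)
  have hli : LinearIndependent K ![s, x] := by
    apply li_pair hs0
    intro t ht
    have h3 : D c x x = t * D c x s := by
      conv_lhs => rw [ht, D_smul2]
      rw [← ht]
    rw [hxx] at h3
    have h4 : t = 0 := (mul_eq_zero.mp h3.symm).resolve_right h2
    apply hx0
    rw [ht, h4, zero_smul]
  obtain ⟨y, hy⟩ := exists_D_ne hsm hs0 hs
  obtain ⟨v, hv, hli3⟩ := exists_third hli hss h1 hy
  obtain ⟨ξ, hξ⟩ := exists_dual ![s, x, v] hli3 ![1, 0, 0]
  have a0 : dt ξ s = 1 := by simpa using hξ 0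
  have a1 : dt ξ x = 0 := by simpa using hξ 1
  have a2 : dt ξ v = 0 := by simpa using hξ 2
  have hne : F c (up K[X] x + (X : K[X]) • up K[X] v) ≠ 0 := by
    intro h0
    rw [coeff_pencilF] at h0
    have c3 := congrArg (fun P => coeff P 3) h0
    have c1 := congrArg (fun P => coeff P 1) h0
    simp [coeff_X, coeff_C] at c3
    simp [coeff_X, coeff_C] at c1
    obtain ⟨t, ht⟩ := hb.2 v c1 c3
    rw [Fintype.linearIndependent_iff] at hli3
    have h3 := hli3 ![0, -t, 1] (by
      rw [Fin.sum_univ_three]
      simp only [Matrix.cons_val_zero, Matrix.cons_val_one, Matrix.cons_val]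
      rw [ht]; simp)
    simpa using h3 2
  obtain ⟨b, hb'⟩ := exists_aeval_ne hne
  rw [aeval_pencilF] at hb'
  have hev : ∀ y : Om K, mp (aeval y) (F c (up K[X] x + (X : K[X]) • up K[X] v) • up K[X] s +
      (-(D c (up K[X] x + (X : K[X]) • up K[X] v) (up K[X] s))) •
        (up K[X] x + (X : K[X]) • up K[X] v)) =
    F c (up (Om K) x + y • up (Om K) v) • up (Om K) s +
      (-(D c (up (Om K) x + y • up (Om K) v) (up (Om K) s))) •
        (up (Om K) x + y • up (Om K) v) := fun y => third_eval y
  refine ⟨F c (up K[X] x + (X : K[X]) • up K[X] v) • up K[X] s +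
      (-(D c (up K[X] x + (X : K[X]) • up K[X] v) (up K[X] s))) •
        (up K[X] x + (X : K[X]) • up K[X] v), ?_,
    ⟨0, -algebraMap K (Om K) (D c x s), ?_, ?_⟩, b, fun κ => ?_⟩
  · apply F_third
    · rw [up_F, hs, map_zero]
    · rw [D_add2, D_smul2, up_D, up_D, h1, hv]
      simp
  · simpa using h2
  · rw [hev, zero_smul, add_zero, up_F, hx, map_zero, zero_smul, zero_add, up_D]
  · apply up_injective_dt ξ a1
    rw [hev, dt_add, dt_smul, dt_smul, dt_add, dt_smul, dt_up, dt_up, dt_up, a0, a1, a2]
    simpa using hb'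

/-- through every rational point of a smooth cubic surface over a finite field there is a rational
curve -/
theorem good_all [Finite K] (hsm : Smooth c) {x : Fin 4 → K} (hx0 : x ≠ 0) (hx : F c x = 0) :
    Good c x := by
  classical
  have := Fintype.ofFinite K
  obtain ⟨y, hy⟩ := exists_D_ne hsm hx0 hx
  rcases M1 hsm hx0 hx hy with h | hb
  · exact h
  have hxx : D c x x = 0 := by rw [D_self, hx, mul_zero]
  obtain ⟨p, hp, hpd⟩ := star hx0 hx hy hb
  by_cases hd : Dsc c x p = 0
  · -- tangent line
    obtain ⟨t, ht1, ht2⟩ : ∃ t : K, D c x p * t ^ 2 + D c p x * t + F c p = 0 ∧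
        2 * D c x p * t + D c p x = 0 := by
      unfold Dsc at hd
      by_cases h2 : (2 : K) = 0
      · have h3 : D c p x = 0 := by
          have : D c p x ^ 2 = 0 := by linear_combination hd + 2 * D c x p * F c p * h2
          exact pow_eq_zero_iff (two_ne_zero) |>.mp this
        have : CharP K 2 := CharTwo.of_one_ne_zero_of_two_eq_zero one_ne_zero h2
        obtain ⟨t, ht⟩ := FiniteField.isSquare_of_char_two (by
          exact (CharP.ringChar_of_prime_eq_zero Nat.prime_two (by exact_mod_cast h2)))
            (F c p / D c x p)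
        refine ⟨t, ?_, ?_⟩
        · rw [h3]
          have h4 : D c x p * (t * t) = F c p := by rw [← ht]; field_simp
          linear_combination h4 + F c p * h2
        · rw [h3]; linear_combination D c x p * t * h2
      · refine ⟨-(D c p x) / (2 * D c x p), ?_, ?_⟩
        · field_simp
          linear_combination -hd
        · field_simp; ring
    refine good_R0 (s := t • x + p) hsm hx0 hx hb ?_ ?_ ?_
    · rw [F_add, F_smul, D_smul1, D_smul2, hx]; linear_combination ht1
    · rw [D_add1, D_smul1, T_smul1, T_aba, hxx]; linear_combination ht2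
    · rw [D_add2, D_smul2, hxx]; simpa using hp
  · obtain ⟨w, hw1, hw2, hw3⟩ := hpd.resolve_left hd
    obtain ⟨v1, hv1, hli⟩ := exists_third (li_pair hx0 hw2) hxx hw1 hp
    have hcfg : Cfg c x p v1 w := by
      refine ⟨hb, hx, hp, hv1, hw1, ?_, hd, hw3⟩
      have h4 := hli.comp ![0, 2, 1] (by decide)
      convert h4 using 1
      funext i
      fin_cases i <;> rfl
    have hd0 : algebraMap K (Om K) (D c x p) ≠ 0 := by simpa using hp
    obtain ⟨l, hl⟩ := IsAlgClosed.exists_root
      (C (algebraMap K (Om K) (D c x p)) * X ^ 2 + C (algebraMap K (Om K) (D c p x)) * X +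
        C (algebraMap K (Om K) (F c p))) (by rw [degree_quadratic hd0]; norm_num)
    have hl' : IsRt c x p l := by
      unfold IsRt
      simpa [IsRoot] using hl
    obtain ⟨m, hm⟩ : ∃ m, m = -(algebraMap K (Om K) (D c p x) / algebraMap K (Om K) (D c x p)) - l :=
      ⟨_, rfl⟩
    have hlm : algebraMap K (Om K) (D c x p) * (l + m) = -algebraMap K (Om K) (D c p x) := by
      rw [hm]; field_simp; ring
    have hm' : IsRt c x p m := by
      unfold IsRt at hl' ⊢
      linear_combination hl' + (m - l) * hlm
    have hne : l ≠ m := by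
      intro h
      rw [← h] at hlm
      apply D_svx_ne hcfg hl'
      rw [D_svx hx]
      linear_combination hlm
    have hfr : ∀ z, IsRt c x p z → IsRt c x p (fr K z) := by
      intro z hz
      unfold IsRt at hz ⊢
      have := congrArg (fr K) hz
      simpa only [map_add, map_mul, map_pow, AlgHom.commutes, map_zero] using this
    have hroots : ∀ z, IsRt c x p z → z = l ∨ z = m := by
      intro z hz
      unfold IsRt at hz hl'
      have h5 : algebraMap K (Om K) (D c x p) * ((z - l) * (z - m)) = 0 := by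
        linear_combination hz - hl' - (z - l) * hlm
      rcases mul_eq_zero.mp ((mul_eq_zero.mp h5).resolve_left hd0) with h6 | h6
      · exact Or.inl (sub_eq_zero.mp h6)
      · exact Or.inr (sub_eq_zero.mp h6)
    have hinj : Function.Injective (fr K) := (fr K).injective
    rcases hroots _ (hfr l hl') with h5 | h5
    · have h6 : fr K m = m := by
        rcases hroots _ (hfr m hm') with h6 | h6
        · exact absurd (hinj (h6.trans h5.symm)) (Ne.symm hne)
        · exact h6
      exact good_C1a hcfg hl' hm' hlm hne h5 h6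
    · have h6 : fr K m = l := by
        rcases hroots _ (hfr m hm') with h6 | h6
        · exact h6
        · exact absurd (hinj (h6.trans h5.symm)) (Ne.symm hne)
      exact good_C1b hcfg hl' hm' hlm hne h5 h6

end Main

end Pool.Agent.R867.Cub
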