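import Pool.Agent.R867.Cub.M1b

set_option autoImplicit false

namespace Pool.Agent.R867.Cub

open Polynomial

section Star

variable {K : Type*} [Field K] {c : Fin 4 → Fin 4 → Fin 4 → K}

/-- the discriminant of the quadratic polynomial `F (t x + p)` -/
def Dsc (c : Fin 4 → Fin 4 → Fin 4 → K) (x p : Fin 4 → K) : K :=
  D c p x ^ 2 - 4 * D c x p * F c p

/-- this expression vanishes if the tangent plane section at a point of the line through `x` and `p` has a
triple point -/
def Est (c : Fin 4 → Fin 4 → Fin 4 → K) (x p w : Fin 4 → K) : K :=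
  D c x p * D c p w ^ 2 - D c p x * T c x p w * D c p w + F c p * T c x p w ^ 2 +
    D c w p * (D c p x ^ 2 - 4 * D c x p * F c p)

lemma bad_T {x : Fin 4 → K} (hb : Bad c x) {v w : Fin 4 → K} (hv : D c x v = 0)
    (hw : D c x w = 0) : T c x v w = 0 := by
  have h := hb.1 (v + w) (by rw [D_add2, hv, hw, add_zero])
  rw [D_add1, hb.1 v hv, hb.1 w hw, zero_add, add_zero] at h
  rw [T_comm12, T_comm23]
  exact h

lemma bad_F {x w : Fin 4 → K} (hb : Bad c x) (hw : D c x w = 0) (hn : ∀ t : K, w ≠ t • x) :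
    F c w ≠ 0 := fun h => by
  obtain ⟨t, ht⟩ := hb.2 w hw h
  exact hn t ht

lemma est_expand {x y w : Fin 4 → K} (h1 : D c x w = 0) (h2 : D c w x = 0) (t : K) :
    Est c x (y + t • w) w = -3 * D c x y * F c w ^ 2 * t ^ 4 +
      (F c w * T c x y w ^ 2 - 4 * D c x y * F c w * D c w y) * t ^ 3 +
      3 * F c w * (T c x y w * D c y x - 2 * D c x y * D c y w) * t ^ 2 +
      3 * F c w * (D c y x ^ 2 - 4 * D c x y * F c y) * t +
      (D c x y * D c y w ^ 2 - D c y x * T c x y w * D c y w + F c y * T c x y w ^ 2 +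
        D c w y * (D c y x ^ 2 - 4 * D c x y * F c y)) := by
  have e1 : D c x (y + t • w) = D c x y := by rw [D_add2, D_smul2, h1]; ring
  have e2 : D c (y + t • w) x = D c y x + t * T c x y w := by
    rw [D_add1, D_smul1, T_smul2, h2, T_comm13 c y w x, T_comm23 c x w y]; ring
  have e3 : T c x (y + t • w) w = T c x y w := by
    rw [T_add2, T_smul2, T_baa, h2]; ring
  have e4 : F c (y + t • w) = F c y + t * D c y w + t ^ 2 * D c w y + t ^ 3 * F c w := by
    rw [F_add, F_smul, D_smul1, D_smul2]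
  have e5 : D c (y + t • w) w = D c y w + 2 * t * D c w y + 3 * t ^ 2 * F c w := by
    rw [D_add1, D_smul1, T_smul2, T_baa, D_self]; ring
  have e6 : D c w (y + t • w) = D c w y + 3 * t * F c w := by
    rw [D_add2, D_smul2, D_self]; ring
  unfold Est
  rw [e1, e2, e3, e4, e5, e6]
  ring

lemma quartic_zero [Fintype K] (h5 : 4 < Fintype.card K) (e4 e3 e2 e1 e0 : K)
    (h : ∀ t : K, e4 * t ^ 4 + e3 * t ^ 3 + e2 * t ^ 2 + e1 * t + e0 = 0) : e4 = 0 := by
  have h1 : (C e4 * X ^ 4 + C e3 * X ^ 3 + C e2 * X ^ 2 + C e1 * X + C e0 : K[X]) = 0 := by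
    apply Polynomial.eq_zero_of_natDegree_lt_card_of_eval_eq_zero _ (f := id)
      Function.injective_id
    · intro t
      simpa using h t
    · refine lt_of_le_of_lt ?_ h5
      compute_degree
  have h2 := congrArg (fun P => coeff P 4) h1
  simpa [coeff_X, coeff_C] using h2

/-- lines through `x` -/
theorem star [Finite K] {x y : Fin 4 → K} (hx0 : x ≠ 0) (hx : F c x = 0)
    (hy : D c x y ≠ 0) (hb : Bad c x) :
    ∃ p, D c x p ≠ 0 ∧ (Dsc c x p = 0 ∨
      ∃ w, D c x w = 0 ∧ (∀ t : K, w ≠ t • x) ∧ Est c x p w ≠ 0) := by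
  classical
  have := Fintype.ofFinite K
  by_contra hcon
  push Not at hcon
  have hxx : D c x x = 0 := by rw [D_self, hx, mul_zero]
  obtain ⟨v1, v2, h1, h2, hli⟩ := exists_frame hx0 hx hy
  have hnr : ∀ a b : K, (a ≠ 0 ∨ b ≠ 0) → ∀ s t : K, a • v1 + b • v2 + s • x ≠ t • x := by
    intro a b hab s t h
    rw [Fintype.linearIndependent_iff] at hli
    have h3 := hli ![s - t, a, b] (by
      rw [Fin.sum_univ_three]
      simp only [Matrix.cons_val_zero, Matrix.cons_val_one, Matrix.cons_val]
      rw [sub_smul, ← h]; funext i; simp)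
    rcases hab with h4 | h4
    · exact h4 (by simpa using h3 1)
    · exact h4 (by simpa using h3 2)
  have hn1 : ∀ t : K, v1 ≠ t • x := fun t h => hnr 1 0 (Or.inl one_ne_zero) 0 t (by simp [h])
  have hn2 : ∀ t : K, v2 ≠ t • x := fun t h => hnr 0 1 (Or.inr one_ne_zero) 0 t (by simp [h])
  have hA1 := bad_F hb h1 hn1
  obtain ⟨P, hPp, nn, hP, hcard⟩ : ∃ p : ℕ, CharP K p ∧ ∃ n : ℕ+, Nat.Prime p ∧
      Fintype.card K = p ^ (n : ℕ) := FiniteField.card' K
  have hlarge : ∀ {z w : Fin 4 → K}, D c x z ≠ 0 → D c x w = 0 → (∀ t : K, w ≠ t • x) →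
      4 < Fintype.card K → (3 : K) * D c x z * F c w ^ 2 = 0 := by
    intro z w hz hw hn h5
    have h6 := quartic_zero h5 _ _ _ _ _ (fun t => (est_expand (c := c) (y := z) hw
      (hb.1 w hw) t).symm.trans ((hcon (z + t • w) (by
        rw [D_add2, D_smul2, hw]; simpa using hz)).2 w hw hn))
    linear_combination -h6
  by_cases c3 : P = 3
  · -- characteristic three
    subst c3
    have : Fact (Nat.Prime 3) := ⟨hP⟩
    have h30 : (3 : K) = 0 := by exact_mod_cast CharP.cast_eq_zero K 3
    have h20 : (2 : K) ≠ 0 := fun h => one_ne_zero (α := K) (by linear_combination h30 - h)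
    have key : ∀ p w, D c x p ≠ 0 → D c p x = 0 → D c x w = 0 → (∀ t : K, w ≠ t • x) →
        T c x p w = 0 → D c w p = 0 := by
      intro p w hp1 hp2 hw hn hT
      have hwx := hb.1 w hw
      by_contra hB
      obtain ⟨t, ht⟩ : ∃ t : K, t = -(D c p w) / (2 * D c w p) := ⟨_, rfl⟩
      have ht' : D c p w + 2 * t * D c w p = 0 := by
        rw [ht]; field_simp; ring
      have hp' : D c x (p + t • w) ≠ 0 := by rw [D_add2, D_smul2, hw]; simpa using hp1
      obtain ⟨g1, g2⟩ := hcon (p + t • w) hp'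
      have g3 := g2 w hw hn
      have e1 : D c x (p + t • w) = D c x p := by rw [D_add2, D_smul2, hw]; ring
      have e2 : D c (p + t • w) x = 0 := by
        rw [D_add1, D_smul1, T_smul2, hwx, hp2, T_comm13 c p w x, T_comm23 c x w p, hT]; ring
      have e3 : T c x (p + t • w) w = 0 := by
        rw [T_add2, T_smul2, T_baa, hwx, hT]; ring
      have e5 : D c (p + t • w) w = 0 := by
        rw [D_add1, D_smul1, T_smul2, T_baa, D_self]
        linear_combination ht' + t ^ 2 * F c w * h30
      have e6 : D c w (p + t • w) = D c w p := by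
        rw [D_add2, D_smul2, D_self]; linear_combination t * F c w * h30
      unfold Est at g3
      unfold Dsc at g1
      rw [e1, e2, e3, e5, e6] at g3
      rw [e1, e2] at g1
      have g4 : D c w p * (0 ^ 2 - 4 * D c x p * F c (p + t • w)) = 0 := by
        linear_combination g3
      rcases mul_eq_zero.mp g4 with g5 | g5
      · exact hB g5
      · exact g1 g5
    -- normalisation
    obtain ⟨y', hy'⟩ : ∃ y', y' = y + (-(D c y x) / (2 * D c x y)) • x := ⟨_, rfl⟩
    have hy1 : D c x y' = D c x y := by rw [hy', D_add2, D_smul2, hxx]; ring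
    have hy2 : D c y' x = 0 := by
      rw [hy', D_add1, D_smul1, T_smul2, T_baa, hxx]; field_simp; ring
    have hU : ∀ w, D c x w = 0 → ∃ s : K, T c x y' (w + s • x) = 0 ∧ D c x (w + s • x) = 0 := by
      intro w hw
      refine ⟨-(T c x y' w) / (2 * D c x y), ?_, ?_⟩
      · rw [T_add3, T_smul3, T_aba, hy1]; field_simp; ring
      · rw [D_add2, D_smul2, hxx, hw]; ring
    obtain ⟨s1, hs1, hs1'⟩ := hU v1 h1
    obtain ⟨s2, hs2, hs2'⟩ := hU v2 h2
    obtain ⟨w1, hw1⟩ : ∃ w, w = v1 + s1 • x := ⟨_, rfl⟩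
    obtain ⟨w2, hw2⟩ : ∃ w, w = v2 + s2 • x := ⟨_, rfl⟩
    rw [← hw1] at hs1 hs1'
    rw [← hw2] at hs2 hs2'
    have hm1 : ∀ t : K, w1 ≠ t • x := fun t h => hnr 1 0 (Or.inl one_ne_zero) s1 t (by
      rw [one_smul, zero_smul, add_zero, ← hw1, h])
    have hm2 : ∀ t : K, w2 ≠ t • x := fun t h => hnr 0 1 (Or.inr one_ne_zero) s2 t (by
      rw [one_smul, zero_smul, zero_add, ← hw2, h])
    have hyne : D c x y' ≠ 0 := by rw [hy1]; exact hy
    have k1 := key y' w1 hyne hy2 hs1' hm1 hs1
    have k2 := key y' w2 hyne hy2 hs2' hm2 hs2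
    have key2 : ∀ v w, D c x v = 0 → T c x y' v = 0 → D c x w = 0 → T c x y' w = 0 →
        (∀ t : K, w ≠ t • x) → D c w v = 0 := by
      intro v w hv1 hv2 hw1 hw2 hn
      have g1 := key y' w hyne hy2 hw1 hn hw2
      have g2 := key (y' + v) w (by rw [D_add2, hv1, add_zero]; exact hyne) (by
        rw [D_add1, hy2, hb.1 v hv1, T_comm13, T_comm23, hv2]; ring) hw1 hn (by
        rw [T_add2, hw2, bad_T hb hv1 hw1]; ring)
      rw [D_add2, g1, zero_add] at g2
      exact g2
    have k3 := key2 w1 w2 hs1' hs1 hs2' hs2 hm2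
    have k4 := key2 w2 w1 hs2' hs2 hs1' hs1 hm1
    have : PerfectRing K 3 := inferInstance
    obtain ⟨a1, ha1⟩ := surjective_frobenius K 3 (F c w1)
    obtain ⟨a2, ha2⟩ := surjective_frobenius K 3 (F c w2)
    rw [frobenius_def] at ha1 ha2
    have ha10 : a1 ≠ 0 := by
      rintro rfl
      exact bad_F hb hs1' hm1 (by rw [← ha1]; ring)
    have hF0 : F c (a2 • w1 + (-a1) • w2) = 0 := by
      rw [F_comb, k3, k4, ← ha1, ← ha2]; ring
    refine bad_F hb (w := a2 • w1 + (-a1) • w2) ?_ ?_ hF0
    · rw [D_add2, D_smul2, D_smul2, hs1', hs2']; ring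
    · intro t ht
      apply hnr a2 (-a1) (Or.inr (neg_ne_zero.mpr ha10)) (a2 * s1 - a1 * s2) t
      rw [← ht, hw1, hw2]
      funext i
      simp only [Pi.add_apply, Pi.smul_apply, smul_eq_mul]
      ring
  by_cases c2 : P = 2
  · -- characteristic two
    subst c2
    have h20 : (2 : K) = 0 := by exact_mod_cast CharP.cast_eq_zero K 2
    have hDne : ∀ p, D c x p ≠ 0 → D c p x ≠ 0 := by
      intro p hp h0
      apply (hcon p hp).1
      unfold Dsc
      rw [h0]
      linear_combination (-2 * D c x p * F c p) * h20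
    have hT : ∀ p w, D c x p ≠ 0 → D c x w = 0 → T c x p w = 0 := by
      intro p w hp hw
      by_contra hT
      obtain ⟨t, ht⟩ : ∃ t : K, t = -(D c p x) / T c x p w := ⟨_, rfl⟩
      refine hDne (p + t • w) (by rw [D_add2, D_smul2, hw]; simpa using hp) ?_
      rw [D_add1, D_smul1, T_smul2, hb.1 w hw, T_comm13 c p w x, T_comm23 c x w p, ht]
      field_simp
      ring
    have hE : ∀ p w, D c x p ≠ 0 → D c x w = 0 → (∀ t : K, w ≠ t • x) → ∀ t : K,
        D c x p * F c w ^ 2 * t ^ 4 + 0 * t ^ 3 + 0 * t ^ 2 + (F c w * D c p x ^ 2) * t +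
          (D c x p * D c p w ^ 2 + D c w p * D c p x ^ 2) = 0 := by
      intro p w hp hw hn t
      have g := (hcon (p + t • w) (by rw [D_add2, D_smul2, hw]; simpa using hp)).2 w hw hn
      rw [est_expand hw (hb.1 w hw), hT p w hp hw] at g
      linear_combination g + (2 * D c x p * F c w ^ 2 * t ^ 4 + 2 * D c x p * F c w * D c w p * t ^ 3
        + 3 * F c w * D c x p * D c p w * t ^ 2 - F c w * D c p x ^ 2 * t
        + 6 * F c w * D c x p * F c p * t + 2 * D c w p * D c x p * F c p) * h20
    have hle : Fintype.card K ≤ 4 := by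
      by_contra h
      push Not at h
      have h6 := quartic_zero h _ _ _ _ _ (hE y v1 hy h1 hn1)
      exact mul_ne_zero hy (pow_ne_zero _ hA1) h6
    have hpow : ∀ t : K, t ^ 4 = t := by
      intro t
      have hn12 : (nn : ℕ) = 1 ∨ (nn : ℕ) = 2 := by
        rw [hcard] at hle
        have h0 := nn.pos
        by_contra h
        push Not at h
        have h3 : 3 ≤ (nn : ℕ) := by omega
        have h4 : 2 ^ 3 ≤ 2 ^ (nn : ℕ) := Nat.pow_le_pow_right (by norm_num) h3
        omega
      have hq := FiniteField.pow_card t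
      rcases hn12 with h | h
      · rw [hcard, h] at hq
        have hq2 : t ^ 2 = t := by simpa using hq
        calc t ^ 4 = (t ^ 2) ^ 2 := by ring
          _ = t := by rw [hq2, hq2]
      · rw [hcard, h] at hq
        exact_mod_cast hq
    have hE0 : ∀ p w, D c x p ≠ 0 → D c x w = 0 → (∀ t : K, w ≠ t • x) →
        D c x p * D c p w ^ 2 + D c w p * D c p x ^ 2 = 0 := by
      intro p w hp hw hn
      have := hE p w hp hw hn 0
      linear_combination this
    have hE1 : ∀ w, D c x w = 0 → (∀ t : K, w ≠ t • x) →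
        F c w = D c y x ^ 2 / D c x y := by
      intro w hw hn
      have g1 := hE y w hy hw hn 1
      have g0 := hE0 y w hy hw hn
      have g2 : F c w * (D c x y * F c w + D c y x ^ 2) = 0 := by
        linear_combination g1 - g0
      have g3 := (mul_eq_zero.mp g2).resolve_left (bad_F hb hw hn)
      rw [eq_div_iff hy]
      linear_combination g3 - D c y x ^ 2 * h20
    obtain ⟨A, hA⟩ : ∃ A, A = D c y x ^ 2 / D c x y := ⟨_, rfl⟩
    rw [← hA] at hE1
    have hA0 : A ≠ 0 := by rw [hA]; exact div_ne_zero (pow_ne_zero _ (hDne y hy)) hy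
    have g1 := hE1 v1 h1 hn1
    have g2 := hE1 v2 h2 hn2
    have hcomb : ∀ ω : K, F c (v1 + ω • v2) = A := by
      intro ω
      apply hE1
      · rw [D_add2, D_smul2, h1, h2]; ring
      · intro t ht
        exact hnr 1 ω (Or.inl one_ne_zero) 0 t (by rw [one_smul, zero_smul, add_zero, ht])
    have hcomb' : ∀ ω : K, ω * D c v1 v2 + ω ^ 2 * D c v2 v1 + ω ^ 3 * A = 0 := by
      intro ω
      have := hcomb ω
      rw [F_add, F_smul, D_smul1, D_smul2, g1, g2] at this
      linear_combination this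
    have hbc : D c v1 v2 + D c v2 v1 = A := by
      have := hcomb' 1
      linear_combination this - A * h20
    by_cases hω : ∃ ω : K, ω ≠ 0 ∧ ω ≠ 1
    · obtain ⟨ω, hω0, hω1⟩ := hω
      have hcube : ∀ τ : K, τ ≠ 0 → τ ^ 3 = 1 := by
        intro τ hτ
        have := hpow τ
        apply mul_left_cancel₀ hτ
        linear_combination this
      have k1 := hcomb' ω
      have k2 := hcomb' (ω + 1)
      rw [hcube ω hω0] at k1
      rw [hcube (ω + 1) (fun h => hω1 (by linear_combination h - h20))] at k2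
      apply hA0
      linear_combination k1 + k2 - hbc - (A + ω * D c v1 v2 + (ω ^ 2 + ω) * D c v2 v1) * h20
    · push Not at hω
      have h01 : ∀ t : K, t ≠ 0 → t = 1 := fun t ht => hω t ht
      have hsym : ∀ p w, D c x p ≠ 0 → D c x w = 0 → (∀ t : K, w ≠ t • x) →
          D c p w = D c w p := by
        intro p w hp hw hn
        have g := hE0 p w hp hw hn
        rw [h01 _ hp, h01 _ (hDne p hp)] at g
        have hsq : D c p w ^ 2 = D c p w := by
          by_cases h0 : D c p w = 0
          · rw [h0]; ring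
          · rw [h01 _ h0]; ring
        linear_combination g - hsq - D c w p * h20
      have hv12 : D c x (v1 + v2) = 0 := by rw [D_add2, h1, h2]; ring
      have hn12 : ∀ t : K, v1 + v2 ≠ t • x := fun t ht =>
        hnr 1 1 (Or.inl one_ne_zero) 0 t (by rw [one_smul, one_smul, zero_smul, add_zero, ht])
      have m1 := hsym y v1 hy h1 hn1
      have m2 := hsym y v2 hy h2 hn2
      have m3 := hsym y (v1 + v2) hy hv12 hn12
      have m4 := hsym (y + v1) v2 (by rw [D_add2, h1, add_zero]; exact hy) h2 hn2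
      rw [D_add2, D_add1] at m3 m4
      apply hA0
      have m5 : T c v1 v2 y = 0 := by linear_combination m1 + m2 - m3
      have m6 : T c y v1 v2 = 0 := by
        rw [T_comm12, T_comm23]; exact m5
      linear_combination m4 - m2 - m6 - hbc + D c v2 v1 * h20
  · -- characteristic at least five
    have hP5 : 5 ≤ P := by
      have := hP.two_le
      by_contra h
      have : P = 4 := by omega
      rw [this] at hP
      exact absurd hP (by norm_num)
    have h5 : 4 < Fintype.card K := by
      rw [hcard]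
      calc 4 < P := by omega
        _ = P ^ 1 := (pow_one P).symm
        _ ≤ P ^ (nn : ℕ) := Nat.pow_le_pow_right (by omega) nn.pos
    have h30 : (3 : K) ≠ 0 := by
      intro h
      have h6 : ((3 : ℕ) : K) = 0 := by exact_mod_cast h
      rw [CharP.cast_eq_zero_iff K P] at h6
      have := Nat.le_of_dvd (by norm_num) h6
      omega
    exact mul_ne_zero (mul_ne_zero h30 hy) (pow_ne_zero _ hA1) (hlarge hy h1 hn1 h5)

end Star

end Pool.Agent.R867.Cub
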